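import Pool.Agent.Work.MP_2738db_nt_Y_helper82.R3E

/-!
Theorem Y, phase 5, block R3D (helper79): the `r`-part of `c ^ k = x ^ 4 - y ^ 4`.
-/

set_option autoImplicit false
set_option linter.unusedSectionVars false

namespace Pool.Agent.Work.MP_2738db_nt_Y.helper79

open Finset NumberField
open Pool.Agent.Work.MP_2738db_nt_A (HB)
open Pool.Agent.Work.MP_2738db_nt_Y
open Pool.Agent.Work.MP_2738db_nt_Y.helper82 (exists_prime HB_mono HB_kappa place_sub_le)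

namespace R3D

section field
variable {K : Type} [Field K] [NumberField K]

theorem zsq {ζ : 𝓞 K} (hζ : IsPrimitiveRoot ζ 4) : ζ ^ 2 = -1 := by
  have h4 : ζ ^ 4 = 1 := hζ.pow_eq_one
  have h2 : ζ ^ 2 ≠ 1 := hζ.pow_ne_one_of_pos_of_lt (by norm_num) (by norm_num)
  have h : (ζ ^ 2 - 1) * (ζ ^ 2 + 1) = 0 := by
    have : (ζ ^ 2 - 1) * (ζ ^ 2 + 1) = ζ ^ 4 - 1 := by ring
    rw [this, h4, sub_self]
  rcases mul_eq_zero.mp h with h | h
  · exact absurd (sub_eq_zero.mp h) h2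
  · exact eq_neg_of_add_eq_zero_left h

theorem tau_z {ζ : 𝓞 K} (hζ : IsPrimitiveRoot ζ 4) {τ : 𝓞 K ≃+* 𝓞 K}
    (hτ : IsConjugation K τ) : τ ζ = -ζ := by
  obtain ⟨φ⟩ : Nonempty (K →+* ℂ) := inferInstance
  have hinj : Function.Injective (fun z : 𝓞 K => φ (z : K)) :=
    φ.injective.comp RingOfIntegers.coe_injective
  apply hinj
  show φ ((τ ζ : 𝓞 K) : K) = φ ((-ζ : 𝓞 K) : K)
  rw [hτ φ ζ]
  have h2 : φ (ζ : K) ^ 2 = -1 := by
    rw [← map_pow]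
    have : ((ζ : K)) ^ 2 = ((ζ ^ 2 : 𝓞 K) : K) := by simp
    rw [this, zsq hζ]
    simp
  have hn : ‖φ (ζ : K)‖ = 1 := by
    have h1 : ‖φ (ζ : K)‖ ^ 2 = 1 := by rw [← norm_pow, h2, norm_neg, norm_one]
    exact (pow_eq_one_iff_of_nonneg (norm_nonneg _) (by norm_num)).mp h1
  have hne : φ (ζ : K) ≠ 0 := by
    intro h
    rw [h, norm_zero] at hn
    exact zero_ne_one hn
  have e1 : starRingEnd ℂ (φ (ζ : K)) * φ (ζ : K) = 1 := by
    rw [mul_comm, Complex.mul_conj, Complex.normSq_eq_norm_sq, hn]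
    norm_num
  have e2 : φ ((-ζ : 𝓞 K) : K) * φ (ζ : K) = 1 := by
    have : φ ((-ζ : 𝓞 K) : K) = -φ (ζ : K) := by simp
    rw [this]
    linear_combination -h2
  exact mul_right_cancel₀ hne (e1.trans e2.symm)

theorem abs_z {ζ : 𝓞 K} (hζ : IsPrimitiveRoot ζ 4) (v : InfinitePlace K) : v ((ζ : 𝓞 K) : K) = 1 := by
  have h1 : v ((ζ : K)) ^ 4 = 1 := by
    rw [← map_pow]
    have : ((ζ : K)) ^ 4 = ((ζ ^ 4 : 𝓞 K) : K) := by simp
    rw [this, hζ.pow_eq_one]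
    simp
  exact (pow_eq_one_iff_of_nonneg (apply_nonneg _ _) (by norm_num)).mp h1

theorem cop_notMem {P : Ideal (𝓞 K)} (hP : P.IsPrime) {x y : ℕ} (hxy : Nat.Coprime x y)
    (hx : ((x : ℕ) : 𝓞 K) ∈ P) (hy : ((y : ℕ) : 𝓞 K) ∈ P) : False := by
  have h7 : IsCoprime (x : ℤ) (y : ℤ) := Nat.isCoprime_iff_coprime.mpr hxy
  obtain ⟨a, b, hab⟩ := h7
  apply hP.ne_top
  rw [Ideal.eq_top_iff_one]
  have h8 : ((a : ℤ) : 𝓞 K) * ((x : ℕ) : 𝓞 K) + ((b : ℤ) : 𝓞 K) * ((y : ℕ) : 𝓞 K) ∈ P :=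
    P.add_mem (P.mul_mem_left _ hx) (P.mul_mem_left _ hy)
  have h9 : ((a : ℤ) : 𝓞 K) * ((x : ℕ) : 𝓞 K) + ((b : ℤ) : 𝓞 K) * ((y : ℕ) : 𝓞 K) = 1 := by
    exact_mod_cast congrArg (Int.cast : ℤ → 𝓞 K) hab
  rwa [h9] at h8

theorem two_notMem {P : Ideal (𝓞 K)} (hP : P.IsPrime) {r : ℕ} (hr : r.Prime) (hr2 : r ≠ 2)
    (hrP : ((r : ℕ) : 𝓞 K) ∈ P) : (2 : 𝓞 K) ∉ P := by
  intro h
  have hodd : Odd r := hr.odd_of_ne_two hr2
  obtain ⟨t, ht⟩ := hodd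
  apply hP.ne_top
  rw [Ideal.eq_top_iff_one]
  have h3 : ((r : ℕ) : 𝓞 K) - (t : 𝓞 K) * 2 ∈ P := P.sub_mem hrP (P.mul_mem_left _ h)
  have h4 : ((r : ℕ) : 𝓞 K) - (t : 𝓞 K) * 2 = 1 := by rw [ht]; push_cast; ring
  rwa [h4] at h3

theorem z_notMem {ζ : 𝓞 K} (hζ : IsPrimitiveRoot ζ 4) {P : Ideal (𝓞 K)} (hP : P.IsPrime) :
    ζ ∉ P := by
  intro h
  have h2 : ζ ^ 4 ∈ P := Ideal.pow_mem_of_mem P h 4 (by norm_num)
  rw [hζ.pow_eq_one] at h2
  exact hP.ne_top ((Ideal.eq_top_iff_one P).mpr h2)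

end field

/-! ### arithmetic -/

theorem sq_mod_four {x y : ℕ} (hxy : Nat.Coprime x y) : (x ^ 2 + y ^ 2) % 4 = 1 ∨
    (x ^ 2 + y ^ 2) % 4 = 2 := by
  have hx : x % 4 = 0 ∨ x % 4 = 1 ∨ x % 4 = 2 ∨ x % 4 = 3 := by omega
  have hy : y % 4 = 0 ∨ y % 4 = 1 ∨ y % 4 = 2 ∨ y % 4 = 3 := by omega
  have hev : ¬ (2 ∣ x ∧ 2 ∣ y) := by
    rintro ⟨h1, h2⟩
    have := Nat.dvd_gcd h1 h2
    rw [hxy] at this
    omega
  rw [Nat.add_mod, Nat.pow_mod x, Nat.pow_mod y]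
  rcases hx with hx | hx | hx | hx <;> rcases hy with hy | hy | hy | hy <;>
    rw [hx, hy] <;> first | (exact absurd ⟨by omega, by omega⟩ hev) | norm_num

theorem odd_prime_factor {x y : ℕ} (hxy : Nat.Coprime x y) (hy : 1 ≤ y) (h : y < x) :
    ∃ q : ℕ, q.Prime ∧ q ≠ 2 ∧ q ∣ x ^ 2 + y ^ 2 := by
  have h5 : 5 ≤ x ^ 2 + y ^ 2 := by nlinarith
  have h4 := sq_mod_four hxy
  set N := x ^ 2 + y ^ 2 with hN
  by_cases he : 2 ∣ N
  · obtain ⟨t, ht⟩ := he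
    have ht1 : t % 2 = 1 := by omega
    refine ⟨t.minFac, Nat.minFac_prime (by omega), ?_, ?_⟩
    · intro h2
      have := Nat.minFac_dvd t
      rw [h2] at this
      omega
    · rw [ht]
      exact (Nat.minFac_dvd t).mul_left 2
  · refine ⟨N.minFac, Nat.minFac_prime (by omega), ?_, Nat.minFac_dvd N⟩
    intro h2
    have := Nat.minFac_dvd N
    rw [h2] at this
    exact he this

section field2
variable {K : Type} [Field K] [NumberField K]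

theorem norm_form {ζ : 𝓞 K} (hζ : IsPrimitiveRoot ζ 4) (x y : ℕ) :
    ((x : 𝓞 K) - ζ * (y : 𝓞 K)) * ((x : 𝓞 K) + ζ * (y : 𝓞 K)) = ((x ^ 2 + y ^ 2 : ℕ) : 𝓞 K) := by
  push_cast
  linear_combination (-(y : 𝓞 K) ^ 2) * zsq hζ

theorem nondeg {ζ : 𝓞 K} (hζ : IsPrimitiveRoot ζ 4) {x y : ℕ} (hxy : Nat.Coprime x y) (hy : 1 ≤ y)
    (h : y < x) {t : ℕ} (ht : 1 ≤ t) :
    ((x : 𝓞 K) - ζ * (y : 𝓞 K)) ^ t ≠ ((x : 𝓞 K) + ζ * (y : 𝓞 K)) ^ t := by
  intro he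
  obtain ⟨q, hq, hq2, hqd⟩ := odd_prime_factor hxy hy h
  obtain ⟨P, hP, -, hqP⟩ := exists_prime (K := K) hq.two_le
  have h2 := two_notMem hP hq hq2 hqP
  have hN : ((x : 𝓞 K) - ζ * (y : 𝓞 K)) * ((x : 𝓞 K) + ζ * (y : 𝓞 K)) ∈ P := by
    rw [norm_form hζ]
    obtain ⟨d, hd⟩ := hqd
    rw [hd]
    push_cast
    exact P.mul_mem_right _ hqP
  have hboth : (x : 𝓞 K) - ζ * (y : 𝓞 K) ∈ P ∧ (x : 𝓞 K) + ζ * (y : 𝓞 K) ∈ P := by
    rcases hP.mem_or_mem hN with h1 | h1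
    · refine ⟨h1, hP.mem_of_pow_mem t ?_⟩
      rw [← he]
      exact Ideal.pow_mem_of_mem P h1 t (by omega)
    · refine ⟨hP.mem_of_pow_mem t ?_, h1⟩
      rw [he]
      exact Ideal.pow_mem_of_mem P h1 t (by omega)
  obtain ⟨h3, h4⟩ := hboth
  have h5 : (2 : 𝓞 K) * (x : 𝓞 K) ∈ P := by
    have := P.add_mem h3 h4
    have e : (x : 𝓞 K) - ζ * (y : 𝓞 K) + ((x : 𝓞 K) + ζ * (y : 𝓞 K)) = 2 * (x : 𝓞 K) := by ring
    rwa [e] at this
  have h6 : (2 : 𝓞 K) * (ζ * (y : 𝓞 K)) ∈ P := by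
    have := P.sub_mem h4 h3
    have e : (x : 𝓞 K) + ζ * (y : 𝓞 K) - ((x : 𝓞 K) - ζ * (y : 𝓞 K)) =
        2 * (ζ * (y : 𝓞 K)) := by ring
    rwa [e] at this
  have h7 := (hP.mem_or_mem h5).resolve_left h2
  have h8 := (hP.mem_or_mem ((hP.mem_or_mem h6).resolve_left h2)).resolve_left (z_notMem hζ hP)
  exact cop_notMem hP hxy h7 h8

/-- from the relation: `α` is not torsion -/
theorem alpha_ne {ζ : 𝓞 K} (hζ : IsPrimitiveRoot ζ 4) {x y : ℕ} (hxy : Nat.Coprime x y)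
    (hy : 1 ≤ y) (h : y < x) {s k : ℕ} (hs : 1 ≤ s) {α β : 𝓞 K} (hα : α ≠ 0)
    (hrel : ((x : 𝓞 K) - ζ * (y : 𝓞 K)) ^ s * β ^ k =
      ((x : 𝓞 K) + ζ * (y : 𝓞 K)) ^ s * α ^ k) : β ^ (4 * k) ≠ α ^ (4 * k) := by
  intro he
  have h1 : ((x : 𝓞 K) - ζ * (y : 𝓞 K)) ^ (s * 4) * β ^ (4 * k) =
      ((x : 𝓞 K) + ζ * (y : 𝓞 K)) ^ (s * 4) * α ^ (4 * k) := by
    have := congrArg (fun z => z ^ 4) hrel
    simp only [mul_pow, ← pow_mul] at this
    rw [mul_comm 4 k]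
    exact this
  rw [he] at h1
  exact nondeg hζ hxy hy h (t := s * 4) (by omega)
    (mul_right_cancel₀ (pow_ne_zero _ hα) h1)

theorem e_mul {ζ : 𝓞 K} (hζ : IsPrimitiveRoot ζ 4) {e : ℤ} (he : e = 1 ∨ e = -1) :
    ((e : 𝓞 K) - ζ) * ((e : 𝓞 K) + ζ) = 2 := by
  have h2 : ((e : 𝓞 K)) ^ 2 = 1 := by
    rcases he with rfl | rfl <;> simp
  linear_combination h2 - zsq hζ

theorem e_four {ζ : 𝓞 K} (hζ : IsPrimitiveRoot ζ 4) {e : ℤ} (he : e = 1 ∨ e = -1) :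
    ((e : 𝓞 K) - ζ) ^ 4 = -4 ∧ ((e : 𝓞 K) + ζ) ^ 4 = -4 := by
  have h2 : ((e : 𝓞 K)) ^ 2 = 1 := by
    rcases he with rfl | rfl <;> simp
  have hz := zsq hζ
  have h4 : ζ ^ 4 = 1 := hζ.pow_eq_one
  have h3 : ((e : 𝓞 K)) ^ 4 = 1 := by
    have : ((e : 𝓞 K)) ^ 4 = (((e : 𝓞 K)) ^ 2) ^ 2 := by ring
    rw [this, h2, one_pow]
  have h5 : ((e : 𝓞 K) - ζ) ^ 2 = -(2 * (e : 𝓞 K) * ζ) := by
    linear_combination h2 + hz
  have h6 : ((e : 𝓞 K) + ζ) ^ 2 = 2 * (e : 𝓞 K) * ζ := by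
    linear_combination h2 + hz
  have h7 : (2 * (e : 𝓞 K) * ζ) ^ 2 = -4 := by
    rw [mul_pow, mul_pow, h2, hz]
    norm_num
  constructor
  · have : ((e : 𝓞 K) - ζ) ^ 4 = (((e : 𝓞 K) - ζ) ^ 2) ^ 2 := by ring
    rw [this, h5, neg_sq, h7]
  · have : ((e : 𝓞 K) + ζ) ^ 4 = (((e : 𝓞 K) + ζ) ^ 2) ^ 2 := by ring
    rw [this, h6, h7]

theorem place_e {e : ℤ} (he : e = 1 ∨ e = -1) (v : InfinitePlace K) :
    v (((e : ℤ) : 𝓞 K) : K) ≤ 1 := by
  rcases he with rfl | rfl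
  · simp
  · have e1 : (((-1 : ℤ) : 𝓞 K) : K) = -1 := by simp
    rw [e1, ← InfinitePlace.norm_embedding_eq, map_neg, norm_neg, map_one, norm_one]

/-- the case `x = ± y` modulo a power of an odd prime -/
theorem caseA {ζ : 𝓞 K} (hζ : IsPrimitiveRoot ζ 4) {P : Ideal (𝓞 K)} (hP : P.IsPrime)
    (h2 : (2 : 𝓞 K) ∉ P) {x y : ℕ} (hyP : (y : 𝓞 K) ∉ P) {e : ℤ} (he : e = 1 ∨ e = -1)
    {s k M : ℕ} {α β : 𝓞 K} {S : ℝ} (hM : 1 ≤ M) (hsS : (s : ℝ) ≤ S)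
    (hrel : ((x : 𝓞 K) - ζ * (y : 𝓞 K)) ^ s * β ^ k =
      ((x : 𝓞 K) + ζ * (y : 𝓞 K)) ^ s * α ^ k)
    (hPα : α ∈ P → (x : 𝓞 K) - ζ * (y : 𝓞 K) ∈ P)
    (hPβ : β ∈ P → (x : 𝓞 K) + ζ * (y : 𝓞 K) ∈ P)
    (hfac : (x : 𝓞 K) - (e : 𝓞 K) * (y : 𝓞 K) ∈ P ^ M) :
    ((e : 𝓞 K) - ζ) ^ s ∉ P ∧ ((e : 𝓞 K) + ζ) ^ s ∉ P ∧ β ∉ P ∧ α ∉ P ∧
      HB K (((e : 𝓞 K) - ζ) ^ s) S ∧ HB K (((e : 𝓞 K) + ζ) ^ s) S ∧
      (((e : 𝓞 K) - ζ) ^ s) ^ 4 = (((e : 𝓞 K) + ζ) ^ s) ^ 4 ∧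
      ((e : 𝓞 K) - ζ) ^ s * β ^ k - ((e : 𝓞 K) + ζ) ^ s * α ^ k ∈ P ^ M := by
  have hfacP : (x : 𝓞 K) - (e : 𝓞 K) * (y : 𝓞 K) ∈ P := Ideal.pow_le_self (by omega) hfac
  have hk1 : (e : 𝓞 K) - ζ ∉ P := by
    intro h
    apply h2
    rw [← e_mul hζ he]
    exact P.mul_mem_right _ h
  have hk2 : (e : 𝓞 K) + ζ ∉ P := by
    intro h
    apply h2
    rw [← e_mul hζ he]
    exact P.mul_mem_left _ h
  have hα : α ∉ P := by
    intro h
    have h5 := P.sub_mem (hPα h) hfacP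
    have e1 : (x : 𝓞 K) - ζ * (y : 𝓞 K) - ((x : 𝓞 K) - (e : 𝓞 K) * (y : 𝓞 K)) =
        ((e : 𝓞 K) - ζ) * (y : 𝓞 K) := by ring
    rw [e1] at h5
    rcases hP.mem_or_mem h5 with h6 | h6
    · exact hk1 h6
    · exact hyP h6
  have hβ : β ∉ P := by
    intro h
    have h5 := P.sub_mem (hPβ h) hfacP
    have e1 : (x : 𝓞 K) + ζ * (y : 𝓞 K) - ((x : 𝓞 K) - (e : 𝓞 K) * (y : 𝓞 K)) =
        ((e : 𝓞 K) + ζ) * (y : 𝓞 K) := by ring
    rw [e1] at h5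
    rcases hP.mem_or_mem h5 with h6 | h6
    · exact hk2 h6
    · exact hyP h6
  refine ⟨fun h => hk1 (hP.mem_of_pow_mem _ h), fun h => hk2 (hP.mem_of_pow_mem _ h), hβ, hα,
    ?_, ?_, ?_, ?_⟩
  · exact HB_kappa (fun v => place_sub_le v (place_e he v) (abs_z hζ v).le) hsS
  · have e1 : (e : 𝓞 K) + ζ = (e : 𝓞 K) - (-ζ) := by ring
    rw [e1]
    refine HB_kappa (fun v => place_sub_le v (place_e he v) ?_) hsS
    have e2 : ((-ζ : 𝓞 K) : K) = -(ζ : K) := by simp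
    rw [e2, ← InfinitePlace.norm_embedding_eq, map_neg, norm_neg, InfinitePlace.norm_embedding_eq]
    exact (abs_z hζ v).le
  · rw [← pow_mul, ← pow_mul, mul_comm s 4, pow_mul, pow_mul, (e_four hζ he).1, (e_four hζ he).2]
  · have hd1 : ((x : 𝓞 K) - ζ * (y : 𝓞 K)) ^ s - (((e : 𝓞 K) - ζ) * (y : 𝓞 K)) ^ s ∈ P ^ M := by
      refine Ideal.mem_of_dvd _ (sub_dvd_pow_sub_pow _ _ s) ?_
      have e1 : (x : 𝓞 K) - ζ * (y : 𝓞 K) - ((e : 𝓞 K) - ζ) * (y : 𝓞 K) =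
          (x : 𝓞 K) - (e : 𝓞 K) * (y : 𝓞 K) := by ring
      rw [e1]; exact hfac
    have hd2 : ((x : 𝓞 K) + ζ * (y : 𝓞 K)) ^ s - (((e : 𝓞 K) + ζ) * (y : 𝓞 K)) ^ s ∈ P ^ M := by
      refine Ideal.mem_of_dvd _ (sub_dvd_pow_sub_pow _ _ s) ?_
      have e1 : (x : 𝓞 K) + ζ * (y : 𝓞 K) - ((e : 𝓞 K) + ζ) * (y : 𝓞 K) =
          (x : 𝓞 K) - (e : 𝓞 K) * (y : 𝓞 K) := by ring
      rw [e1]; exact hfac
    have hd3 := Ideal.sub_mem _ (Ideal.mul_mem_right (α ^ k) _ hd2)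
      (Ideal.mul_mem_right (β ^ k) _ hd1)
    have e1 : (((x : 𝓞 K) + ζ * (y : 𝓞 K)) ^ s - (((e : 𝓞 K) + ζ) * (y : 𝓞 K)) ^ s) * α ^ k -
        (((x : 𝓞 K) - ζ * (y : 𝓞 K)) ^ s - (((e : 𝓞 K) - ζ) * (y : 𝓞 K)) ^ s) * β ^ k =
        (y : 𝓞 K) ^ s * (((e : 𝓞 K) - ζ) ^ s * β ^ k - ((e : 𝓞 K) + ζ) ^ s * α ^ k) := by
      rw [mul_pow, mul_pow]
      linear_combination -hrel
    rw [e1] at hd3
    have := hP
    exact (Ideal.IsPrime.mul_mem_pow P hd3).resolve_left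
      (fun h => hyP (hP.mem_of_pow_mem _ h))

theorem four_pow {R : Type} [CommRing R] (a u b : R) (s k : ℕ) :
    ((a * u) ^ s * b ^ k) ^ 4 = (a ^ 4) ^ s * (u ^ (4 * s) * b ^ (4 * k)) := by
  rw [mul_pow, mul_pow, mul_pow]
  ring

/-- the case of the prime `2` -/
theorem caseB {ζ : 𝓞 K} (hζ : IsPrimitiveRoot ζ 4) {P : Ideal (𝓞 K)} (hP : P.IsPrime)
    (h2 : (2 : 𝓞 K) ∈ P) {x y : ℕ} (hyP : (y : 𝓞 K) ∉ P) {e t : ℤ} (he : e = 1 ∨ e = -1)
    {s k M : ℕ} {α β : 𝓞 K}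
    (hrel : ((x : 𝓞 K) - ζ * (y : 𝓞 K)) ^ s * β ^ k =
      ((x : 𝓞 K) + ζ * (y : 𝓞 K)) ^ s * α ^ k)
    (hfac : (x : ℤ) = e * y + 2 ^ (M + 1) * t) : β ^ (4 * k) - α ^ (4 * k) ∈ P ^ M := by
  have hxK : (x : 𝓞 K) = (e : 𝓞 K) * (y : 𝓞 K) + 2 ^ (M + 1) * (t : 𝓞 K) := by
    exact_mod_cast congrArg (Int.cast : ℤ → 𝓞 K) hfac
  have hem := e_mul hζ he
  have hu1 : (x : 𝓞 K) - ζ * (y : 𝓞 K) =
      ((e : 𝓞 K) - ζ) * ((y : 𝓞 K) + ((e : 𝓞 K) + ζ) * 2 ^ M * (t : 𝓞 K)) := by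
    rw [hxK]
    linear_combination (-(2 ^ M * (t : 𝓞 K))) * hem
  have hu2 : (x : 𝓞 K) + ζ * (y : 𝓞 K) =
      ((e : 𝓞 K) + ζ) * ((y : 𝓞 K) + ((e : 𝓞 K) - ζ) * 2 ^ M * (t : 𝓞 K)) := by
    rw [hxK]
    linear_combination (-(2 ^ M * (t : 𝓞 K))) * hem
  set u : 𝓞 K := (y : 𝓞 K) + ((e : 𝓞 K) + ζ) * 2 ^ M * (t : 𝓞 K) with hu
  set u' : 𝓞 K := (y : 𝓞 K) + ((e : 𝓞 K) - ζ) * 2 ^ M * (t : 𝓞 K) with hu'
  have h2M : (2 : 𝓞 K) ^ M ∈ P ^ M := Ideal.pow_mem_pow h2 M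
  have hd1 : u ^ (4 * s) - (y : 𝓞 K) ^ (4 * s) ∈ P ^ M := by
    refine Ideal.mem_of_dvd _ (sub_dvd_pow_sub_pow _ _ _) ?_
    have e1 : u - (y : 𝓞 K) = ((e : 𝓞 K) + ζ) * (t : 𝓞 K) * 2 ^ M := by rw [hu]; ring
    rw [e1]
    exact Ideal.mul_mem_left _ _ h2M
  have hd2 : u' ^ (4 * s) - (y : 𝓞 K) ^ (4 * s) ∈ P ^ M := by
    refine Ideal.mem_of_dvd _ (sub_dvd_pow_sub_pow _ _ _) ?_
    have e1 : u' - (y : 𝓞 K) = ((e : 𝓞 K) - ζ) * (t : 𝓞 K) * 2 ^ M := by rw [hu']; ring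
    rw [e1]
    exact Ideal.mul_mem_left _ _ h2M
  have hrel4 : u ^ (4 * s) * β ^ (4 * k) = u' ^ (4 * s) * α ^ (4 * k) := by
    have h1 : (((x : 𝓞 K) - ζ * (y : 𝓞 K)) ^ s * β ^ k) ^ 4 =
        (((x : 𝓞 K) + ζ * (y : 𝓞 K)) ^ s * α ^ k) ^ 4 := by rw [hrel]
    rw [hu1, hu2] at h1
    rw [four_pow, four_pow, (e_four hζ he).1, (e_four hζ he).2] at h1
    refine mul_left_cancel₀ (pow_ne_zero s ?_) h1
    norm_num
  have hd3 := Ideal.sub_mem _ (Ideal.mul_mem_right (α ^ (4 * k)) _ hd2)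
    (Ideal.mul_mem_right (β ^ (4 * k)) _ hd1)
  have e1 : (u' ^ (4 * s) - (y : 𝓞 K) ^ (4 * s)) * α ^ (4 * k) -
      (u ^ (4 * s) - (y : 𝓞 K) ^ (4 * s)) * β ^ (4 * k) =
      (y : 𝓞 K) ^ (4 * s) * (β ^ (4 * k) - α ^ (4 * k)) := by
    linear_combination -hrel4
  rw [e1] at hd3
  have := hP
  exact (Ideal.IsPrime.mul_mem_pow P hd3).resolve_left
    (fun h => hyP (hP.mem_of_pow_mem _ h))

theorem HB_nat {n : ℕ} {A : ℝ} (h : Real.log n ≤ A) (hn : 1 ≤ n) : HB K ((n : ℕ) : 𝓞 K) A := by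
  intro v
  have h1 : (((n : ℕ) : 𝓞 K) : K) = ((n : ℕ) : K) := by simp
  rw [h1, ← InfinitePlace.norm_embedding_eq, map_natCast, Complex.norm_natCast]
  have h2 : (0 : ℝ) < n := by exact_mod_cast hn
  rw [← Real.exp_log h2]
  exact Real.exp_le_exp.mpr h

end field2

/-! ### splitting into `k`-th powers -/

theorem factor {x y c k : ℕ} (hlt : y < x) (hE : y ^ 4 + c ^ k = x ^ 4) :
    (x - y) * ((x + y) * (x ^ 2 + y ^ 2)) = c ^ k := by
  obtain ⟨d, rfl⟩ := Nat.exists_eq_add_of_lt hlt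
  have h1 : y + d + 1 - y = d + 1 := by omega
  rw [h1]
  have h2 : y ^ 4 + c ^ k = y ^ 4 + (d + 1) * ((y + d + 1 + y) * ((y + d + 1) ^ 2 + y ^ 2)) := by
    rw [hE]
    ring
  exact (Nat.add_left_cancel h2).symm

theorem pow_of_mul {a b c k : ℕ} (hab : Nat.Coprime a b) (h : a * b = c ^ k) :
    ∃ d, a = d ^ k := by
  refine exists_eq_pow_of_mul_eq_pow ?_ h
  have : GCDMonoid.gcd a b = Nat.gcd a b := rfl
  rw [this, hab]
  exact isUnit_one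

/-- the three shapes -/
theorem split {x y c k : ℕ} (hxy : Nat.Coprime x y) (hlt : y < x)
    (hE : y ^ 4 + c ^ k = x ^ 4) :
    ∃ a₁ a₂ : ℕ, (x - y = a₁ ^ k ∧ x + y = a₂ ^ k) ∨
      (x - y = 2 * a₁ ^ k ∧ 4 * (x + y) = a₂ ^ k) ∨
      (x + y = 2 * a₁ ^ k ∧ 4 * (x - y) = a₂ ^ k) := by
  have hf := factor hlt hE
  obtain ⟨D, hD⟩ : ∃ D, x = y + D := ⟨x - y, by omega⟩
  have hxD : x - y = D := by omega
  have hD0 : 0 < D := by omega
  -- an odd common divisor is 1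
  have hcopD : Nat.Coprime D y := by
    have h1 : Nat.Coprime (y + D) y := by rw [← hD]; exact hxy
    exact (Nat.coprime_add_self_left ..).1 (by rwa [add_comm] at h1)
  rw [hxD] at hf ⊢
  have hs : x + y = D + 2 * y := by omega
  have hq : x ^ 2 + y ^ 2 = D * (D + 2 * y) + 2 * y ^ 2 := by rw [hD]; ring
  have hq' : x ^ 2 + y ^ 2 + D * (D + 2 * y) = 2 * x ^ 2 := by rw [hD]; ring
  -- prime divisors
  have hpy : ∀ p : ℕ, p.Prime → p ∣ D → p ∣ y → False := by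
    intro p hp h1 h2
    have := Nat.dvd_gcd h1 h2
    rw [hcopD] at this
    exact hp.one_lt.ne' (Nat.dvd_one.1 this)
  have hpy2 : ∀ p : ℕ, p.Prime → p ∣ D → p ∣ 2 * y → p = 2 := by
    intro p hp h1 h2
    rcases (Nat.Prime.dvd_mul hp).1 h2 with h3 | h3
    · exact (Nat.prime_dvd_prime_iff_eq hp Nat.prime_two).1 h3
    · exact (hpy p hp h1 h3).elim
  have hDs : ∀ p : ℕ, p.Prime → p ∣ D → p ∣ x + y → p = 2 := by
    intro p hp h1 h2
    rw [hs] at h2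
    exact hpy2 p hp h1 ((Nat.dvd_add_right h1).1 h2)
  have hDq : ∀ p : ℕ, p.Prime → p ∣ D → p ∣ x ^ 2 + y ^ 2 → p = 2 := by
    intro p hp h1 h2
    rw [hq] at h2
    have h3 : p ∣ 2 * y ^ 2 := (Nat.dvd_add_right (h1.mul_right _)).1 h2
    rcases (Nat.Prime.dvd_mul hp).1 h3 with h4 | h4
    · exact (Nat.prime_dvd_prime_iff_eq hp Nat.prime_two).1 h4
    · exact (hpy p hp h1 (hp.dvd_of_dvd_pow h4)).elim
  have hsq : ∀ p : ℕ, p.Prime → p ∣ x + y → p ∣ x ^ 2 + y ^ 2 → p = 2 := by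
    intro p hp h1 h2
    have h3 : p ∣ 2 * y ^ 2 := by
      rw [hq, ← hs] at h2
      exact (Nat.dvd_add_right (h1.mul_left _)).1 h2
    rcases (Nat.Prime.dvd_mul hp).1 h3 with h4 | h4
    · exact (Nat.prime_dvd_prime_iff_eq hp Nat.prime_two).1 h4
    · have h5 : p ∣ y := hp.dvd_of_dvd_pow h4
      have h6 : p ∣ x := (Nat.dvd_add_left h5).1 h1
      have := Nat.dvd_gcd h6 h5
      rw [hxy] at this
      exact absurd (Nat.dvd_one.1 this) hp.one_lt.ne'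
  by_cases hpar : D % 2 = 1
  · -- all factors odd
    have h1 : Nat.Coprime D ((x + y) * (x ^ 2 + y ^ 2)) := by
      refine Nat.Coprime.mul_right ?_ ?_
      · refine Nat.Coprime.symm (Nat.coprime_of_dvd fun p hp h2 h3 => ?_)
        have := hDs p hp h3 h2
        subst this
        omega
      · refine Nat.Coprime.symm (Nat.coprime_of_dvd fun p hp h2 h3 => ?_)
        have := hDq p hp h3 h2
        subst this
        omega
    have h2 : Nat.Coprime (x + y) (D * (x ^ 2 + y ^ 2)) := by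
      refine Nat.Coprime.mul_right ?_ ?_
      · refine Nat.coprime_of_dvd fun p hp h2 h3 => ?_
        have := hDs p hp h3 h2
        subst this
        omega
      · refine Nat.coprime_of_dvd fun p hp h2 h3 => ?_
        have := hsq p hp h2 h3
        subst this
        omega
    obtain ⟨a₁, ha₁⟩ := pow_of_mul h1 hf
    obtain ⟨a₂, ha₂⟩ := pow_of_mul (c := c) (k := k) h2 (by rw [← hf]; ring)
    exact ⟨a₁, a₂, Or.inl ⟨ha₁, ha₂⟩⟩
  · -- `x`, `y` odd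
    have hyodd : y % 2 = 1 := by
      by_contra h
      exact hpy 2 Nat.prime_two (by omega) (by omega)
    obtain ⟨m, hm⟩ : 2 ∣ x ^ 2 + y ^ 2 := by
      rw [hq]
      exact dvd_add ((Nat.dvd_of_mod_eq_zero (by omega)).mul_right _) (dvd_mul_right _ _)
    have hmodd : m % 2 = 1 := by
      have := sq_mod_four hxy
      rw [hm] at this
      omega
    obtain ⟨D', hD'⟩ : 2 ∣ D := Nat.dvd_of_mod_eq_zero (by omega)
    obtain ⟨E', hE'⟩ : 2 ∣ x + y := by rw [hs]; omega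
    have hsum : E' = D' + y := by omega
    -- general step
    have key : ∀ u w : ℕ, u % 2 = 1 → 0 < u →
        (∀ p : ℕ, p.Prime → p ∣ u → p ∣ 2 * w → p = 2) →
        (∀ p : ℕ, p.Prime → p ∣ u → p ∣ m → p = 2) →
        (∀ p : ℕ, p.Prime → p ∣ 2 * w → p ∣ m → p = 2) → 2 * u * (2 * w * (2 * m)) = c ^ k →
        ∃ a₁ a₂ : ℕ, u = a₁ ^ k ∧ 4 * (2 * w) = a₂ ^ k := by
      intro u w hu hu0 h1 h2 h3 h4
      have hu2 : ¬ 2 ∣ u := by omega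
      have hm2 : ¬ 2 ∣ m := by omega
      have c1 : Nat.Coprime u (4 * (2 * w) * m) := by
        refine Nat.coprime_of_dvd fun p hp h5 h6 => ?_
        have hp2 : p = 2 := by
          rcases (Nat.Prime.dvd_mul hp).1 h6 with h7 | h7
          · rcases (Nat.Prime.dvd_mul hp).1 h7 with h8 | h8
            · have h9 : p ∣ 2 ^ 2 := h8
              exact (Nat.prime_dvd_prime_iff_eq hp Nat.prime_two).1 (hp.dvd_of_dvd_pow h9)
            · exact h1 p hp h5 h8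
          · exact h2 p hp h5 h7
        subst hp2
        exact hu2 h5
      have c2 : Nat.Coprime (4 * (2 * w)) (u * m) := by
        refine Nat.coprime_of_dvd fun p hp h5 h6 => ?_
        have hp2 : p = 2 := by
          rcases (Nat.Prime.dvd_mul hp).1 h5 with h8 | h8
          · have h9 : p ∣ 2 ^ 2 := h8
            exact (Nat.prime_dvd_prime_iff_eq hp Nat.prime_two).1 (hp.dvd_of_dvd_pow h9)
          · rcases (Nat.Prime.dvd_mul hp).1 h6 with h7 | h7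
            · exact h1 p hp h7 h8
            · exact h3 p hp h8 h7
        subst hp2
        rcases (Nat.Prime.dvd_mul hp).1 h6 with h7 | h7
        · exact hu2 h7
        · exact hm2 h7
      obtain ⟨a₁, ha₁⟩ := pow_of_mul (c := c) (k := k) c1 (by rw [← h4]; ring)
      obtain ⟨a₂, ha₂⟩ := pow_of_mul (c := c) (k := k) c2 (by rw [← h4]; ring)
      exact ⟨a₁, a₂, ha₁, ha₂⟩
    have hqm : ∀ p : ℕ, p ∣ m → p ∣ x ^ 2 + y ^ 2 := by
      intro p h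
      rw [hm]
      exact h.mul_left 2
    by_cases hD'par : D' % 2 = 1
    · obtain ⟨a₁, a₂, h1, h2⟩ := key D' E' hD'par (by omega)
        (fun p hp h1 h2 => hDs p hp (by rw [hD']; exact h1.mul_left 2) (by rw [hE']; exact h2))
        (fun p hp h1 h2 => hDq p hp (by rw [hD']; exact h1.mul_left 2) (hqm p h2))
        (fun p hp h1 h2 => hsq p hp (by rw [hE']; exact h1) (hqm p h2))
        (by rw [← hD', ← hE', ← hm]; exact hf)
      refine ⟨a₁, a₂, Or.inr (Or.inl ⟨?_, ?_⟩)⟩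
      · rw [← h1]; exact hD'
      · rw [hE']; exact h2
    · have hE'par : E' % 2 = 1 := by omega
      obtain ⟨a₁, a₂, h1, h2⟩ := key E' D' hE'par (by omega)
        (fun p hp h1 h2 => hDs p hp (by rw [hD']; exact h2) (by rw [hE']; exact h1.mul_left 2))
        (fun p hp h1 h2 => hsq p hp (by rw [hE']; exact h1.mul_left 2) (hqm p h2))
        (fun p hp h1 h2 => hDq p hp (by rw [hD']; exact h1) (hqm p h2))
        (by rw [← hD', ← hE', ← hm, ← hf]; ring)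
      refine ⟨a₁, a₂, Or.inr (Or.inr ⟨?_, ?_⟩)⟩
      · rw [← h1]; exact hE'
      · rw [hD']; exact h2

/-- the case of a factor `x ^ 2 + y ^ 2` -/
theorem caseC {K : Type} [Field K] [NumberField K] {P : Ideal (𝓞 K)} (hP : P.IsPrime)
    (h2 : (2 : 𝓞 K) ∉ P) {x y c k M : ℕ} (hxy : Nat.Coprime x y) (hy : 1 ≤ y) (hlt : y < x)
    (hk : 1 ≤ k) (hM : 1 ≤ M) (hc : 2 ≤ c)
    (hE : y ^ 4 + c ^ k = x ^ 4) (hfac : ((x ^ 2 + y ^ 2 : ℕ) : 𝓞 K) ∈ P ^ M) :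
    ∃ κ a₁ a₂ : ℕ, (κ = 1 ∧ a₁ ^ k ≠ a₂ ^ k ∨ κ = 8 ^ 4) ∧ 1 ≤ a₁ ∧ 1 ≤ a₂ ∧ a₁ ≤ 4 * c ∧
      a₂ ≤ 4 * c ∧ ((a₁ : ℕ) : 𝓞 K) ∉ P ∧ ((a₂ : ℕ) : 𝓞 K) ∉ P ∧
      ((κ : ℕ) : 𝓞 K) * (((a₁ ^ 4 : ℕ) : 𝓞 K)) ^ k - ((1 : ℕ) : 𝓞 K) *
        (((a₂ ^ 4 : ℕ) : 𝓞 K)) ^ k ∈ P ^ M := by
  obtain ⟨D, hD⟩ : ∃ D, x = y + D := ⟨x - y, by omega⟩
  have hxD : x - y = D := by omega
  have hD0 : 0 < D := by omega
  have hf := factor hlt hE
  have hfacP : ((x ^ 2 + y ^ 2 : ℕ) : 𝓞 K) ∈ P := Ideal.pow_le_self (by omega) hfac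
  have hsum0 : 0 < x + y := by omega
  have hsq0 : 0 < x ^ 2 + y ^ 2 := by positivity
  -- `x - y`, `x + y` are not in `P`
  have hDP : ((D : ℕ) : 𝓞 K) ∉ P := by
    intro h
    have h3 : (2 : 𝓞 K) * ((y : ℕ) : 𝓞 K) ^ 2 ∈ P := by
      have h4 := P.sub_mem hfacP (P.mul_mem_left ((x + y : ℕ) : 𝓞 K) h)
      have e1 : ((x ^ 2 + y ^ 2 : ℕ) : 𝓞 K) - ((x + y : ℕ) : 𝓞 K) * ((D : ℕ) : 𝓞 K) =
          2 * ((y : ℕ) : 𝓞 K) ^ 2 := by
        rw [hD]; push_cast; ring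
      rwa [e1] at h4
    have h4 : ((y : ℕ) : 𝓞 K) ∈ P := hP.mem_of_pow_mem 2 ((hP.mem_or_mem h3).resolve_left h2)
    refine cop_notMem hP hxy ?_ h4
    rw [hD]; push_cast
    exact P.add_mem h4 h
  have hsP : ((x + y : ℕ) : 𝓞 K) ∉ P := by
    intro h
    have h3 : (2 : 𝓞 K) * ((y : ℕ) : 𝓞 K) ^ 2 ∈ P := by
      have h4 := P.sub_mem hfacP (P.mul_mem_left ((D : ℕ) : 𝓞 K) h)
      have e1 : ((x ^ 2 + y ^ 2 : ℕ) : 𝓞 K) - ((D : ℕ) : 𝓞 K) * ((x + y : ℕ) : 𝓞 K) =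
          2 * ((y : ℕ) : 𝓞 K) ^ 2 := by
        rw [hD]; push_cast; ring
      rwa [e1] at h4
    have h4 : ((y : ℕ) : 𝓞 K) ∈ P := hP.mem_of_pow_mem 2 ((hP.mem_or_mem h3).resolve_left h2)
    refine cop_notMem hP hxy ?_ h4
    have h5 := P.sub_mem h h4
    have e1 : ((x + y : ℕ) : 𝓞 K) - ((y : ℕ) : 𝓞 K) = ((x : ℕ) : 𝓞 K) := by push_cast; ring
    rwa [e1] at h5
  -- the congruence of the fourth powers
  have hcong : ((D : ℕ) : 𝓞 K) ^ 4 - ((x + y : ℕ) : 𝓞 K) ^ 4 ∈ P ^ M := by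
    have e1 : ((D : ℕ) : 𝓞 K) ^ 4 - ((x + y : ℕ) : 𝓞 K) ^ 4 =
        (-(8 * ((x : ℕ) : 𝓞 K) * ((y : ℕ) : 𝓞 K))) * ((x ^ 2 + y ^ 2 : ℕ) : 𝓞 K) := by
      have e2 : ((D : ℕ) : 𝓞 K) = ((x : ℕ) : 𝓞 K) - ((y : ℕ) : 𝓞 K) := by
        rw [hD]; push_cast; ring
      rw [e2]; push_cast; ring
    rw [e1]
    exact Ideal.mul_mem_left _ _ hfac
  -- sizes
  have hcpos : 0 < c ^ k := by positivity
  have hDle : D ≤ c ^ k := by
    rw [← hf, hxD]
    exact Nat.le_mul_of_pos_right _ (by positivity)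
  have hsle : x + y ≤ c ^ k := by
    rw [← hf]
    calc x + y ≤ (x + y) * (x ^ 2 + y ^ 2) := Nat.le_mul_of_pos_right _ hsq0
      _ ≤ (x - y) * ((x + y) * (x ^ 2 + y ^ 2)) := Nat.le_mul_of_pos_left _ (by omega)
  have h4c : 4 * c ^ k ≤ (4 * c) ^ k := by
    rw [mul_pow]
    refine Nat.mul_le_mul_right _ ?_
    calc 4 = 4 ^ 1 := by norm_num
      _ ≤ 4 ^ k := Nat.pow_le_pow_right (by norm_num) hk
  have hsize : ∀ a : ℕ, a ^ k ≤ 4 * c ^ k → a ≤ 4 * c := by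
    intro a ha
    exact (Nat.pow_le_pow_iff_left (by omega)).1 (ha.trans h4c)
  have hpos : ∀ a N : ℕ, 0 < N → N = a ^ k → 1 ≤ a := by
    intro a N hN h
    rcases Nat.eq_zero_or_pos a with h0 | h0
    · rw [h0, zero_pow (by omega)] at h
      omega
    · exact h0
  have hfour : (4 : 𝓞 K) ∉ P := by
    intro h
    have e1 : (4 : 𝓞 K) = 2 * 2 := by norm_num
    rw [e1] at h
    rcases hP.mem_or_mem h with h3 | h3 <;> exact h2 h3
  have hmem : ∀ a : ℕ, ((a : ℕ) : 𝓞 K) ∈ P → ((a ^ k : ℕ) : 𝓞 K) ∈ P := by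
    intro a h
    push_cast
    exact Ideal.pow_mem_of_mem P h k (by omega)
  obtain ⟨a₁, a₂, h | h | h⟩ := split hxy hlt hE
  · obtain ⟨h3, h4⟩ := h
    rw [hxD] at h3
    refine ⟨1, a₁, a₂, Or.inl ⟨rfl, ?_⟩, hpos _ _ hD0 h3, hpos _ _ hsum0 h4, hsize _ ?_,
      hsize _ ?_, ?_, ?_, ?_⟩
    · rw [← h3, ← h4]; omega
    · rw [← h3]; omega
    · rw [← h4]; omega
    · intro h; exact hDP (by rw [h3]; exact hmem _ h)
    · intro h; exact hsP (by rw [h4]; exact hmem _ h)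
    · have e1 : ((1 : ℕ) : 𝓞 K) * (((a₁ ^ 4 : ℕ) : 𝓞 K)) ^ k - ((1 : ℕ) : 𝓞 K) *
          (((a₂ ^ 4 : ℕ) : 𝓞 K)) ^ k = ((D : ℕ) : 𝓞 K) ^ 4 - ((x + y : ℕ) : 𝓞 K) ^ 4 := by
        rw [h3, h4]; push_cast; ring
      rw [e1]
      exact hcong
  · obtain ⟨h3, h4⟩ := h
    rw [hxD] at h3
    have h3' : 0 < a₁ ^ k := by omega
    refine ⟨8 ^ 4, a₁, a₂, Or.inr rfl, hpos _ _ h3' rfl, hpos _ (4 * (x + y)) (by omega) h4,
      hsize _ ?_, hsize _ ?_, ?_, ?_, ?_⟩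
    · omega
    · rw [← h4]; omega
    · intro h
      apply hDP
      rw [h3]; push_cast
      refine P.mul_mem_left _ ?_
      exact_mod_cast hmem _ h
    · intro h
      have h5 := hmem _ h
      rw [← h4] at h5
      push_cast at h5
      rcases hP.mem_or_mem h5 with h6 | h6
      · exact hfour h6
      · exact hsP (by push_cast; exact h6)
    · have e1 : ((8 ^ 4 : ℕ) : 𝓞 K) * (((a₁ ^ 4 : ℕ) : 𝓞 K)) ^ k - ((1 : ℕ) : 𝓞 K) *
          (((a₂ ^ 4 : ℕ) : 𝓞 K)) ^ k =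
          4 ^ 4 * (((D : ℕ) : 𝓞 K) ^ 4 - ((x + y : ℕ) : 𝓞 K) ^ 4) := by
        have e2 : (((a₂ ^ 4 : ℕ) : 𝓞 K)) ^ k = (((a₂ ^ k : ℕ) : 𝓞 K)) ^ 4 := by
          push_cast; ring
        rw [e2, ← h4, h3]; push_cast; ring
      rw [e1]
      exact Ideal.mul_mem_left _ _ hcong
  · obtain ⟨h3, h4⟩ := h
    rw [hxD] at h4
    have h3' : 0 < a₁ ^ k := by omega
    refine ⟨8 ^ 4, a₁, a₂, Or.inr rfl, hpos _ _ h3' rfl, hpos _ (4 * D) (by omega) h4,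
      hsize _ ?_, hsize _ ?_, ?_, ?_, ?_⟩
    · omega
    · rw [← h4]; omega
    · intro h
      apply hsP
      rw [h3]; push_cast
      refine P.mul_mem_left _ ?_
      exact_mod_cast hmem _ h
    · intro h
      have h5 := hmem _ h
      rw [← h4] at h5
      push_cast at h5
      rcases hP.mem_or_mem h5 with h6 | h6
      · exact hfour h6
      · exact hDP h6
    · have e1 : ((8 ^ 4 : ℕ) : 𝓞 K) * (((a₁ ^ 4 : ℕ) : 𝓞 K)) ^ k - ((1 : ℕ) : 𝓞 K) *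
          (((a₂ ^ 4 : ℕ) : 𝓞 K)) ^ k =
          (-4 ^ 4) * (((D : ℕ) : 𝓞 K) ^ 4 - ((x + y : ℕ) : 𝓞 K) ^ 4) := by
        have e2 : (((a₂ ^ 4 : ℕ) : 𝓞 K)) ^ k = (((a₂ ^ k : ℕ) : 𝓞 K)) ^ 4 := by
          push_cast; ring
        rw [e2, ← h4, h3]; push_cast; ring
      rw [e1]
      exact Ideal.mul_mem_left _ _ hcong

/-! ### the distribution of the prime powers -/

/-- odd primes -/
theorem odd_cases {r x y M : ℕ} (hr : r.Prime) (hr2 : r ≠ 2) (hxy : Nat.Coprime x y)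
    (h : (r : ℤ) ^ M ∣ (x : ℤ) ^ 4 - (y : ℤ) ^ 4) :
    (∃ e : ℤ, (e = 1 ∨ e = -1) ∧ (r : ℤ) ^ M ∣ (x : ℤ) - e * y) ∨
      (r : ℤ) ^ M ∣ (x : ℤ) ^ 2 + (y : ℤ) ^ 2 := by
  have hp : Prime (r : ℤ) := Nat.prime_iff_prime_int.1 hr
  have hp2 : ¬ (r : ℤ) ∣ 2 := by
    intro h1
    have h2 : r ∣ 2 := by exact_mod_cast h1
    exact hr2 ((Nat.prime_dvd_prime_iff_eq hr Nat.prime_two).1 h2)
  have hcop : ∀ h1 : (r : ℤ) ∣ x, (r : ℤ) ∣ y → False := by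
    intro h1 h2
    have h3 : r ∣ x := by exact_mod_cast h1
    have h4 : r ∣ y := by exact_mod_cast h2
    have := Nat.dvd_gcd h3 h4
    rw [hxy] at this
    exact hr.one_lt.ne' (Nat.dvd_one.1 this)
  have h1 : (x : ℤ) ^ 4 - (y : ℤ) ^ 4 = ((x : ℤ) ^ 2 + y ^ 2) * ((x - y) * (x + y)) := by ring
  rw [h1] at h
  by_cases hq : (r : ℤ) ∣ (x : ℤ) ^ 2 + y ^ 2
  · right
    have h2 : ¬ (r : ℤ) ∣ (x - y) * (x + y) := by
      intro h3
      have h4 : (r : ℤ) ∣ 2 * (y : ℤ) ^ 2 := by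
        have := dvd_sub hq h3
        have e1 : (x : ℤ) ^ 2 + y ^ 2 - (x - y) * (x + y) = 2 * (y : ℤ) ^ 2 := by ring
        rwa [e1] at this
      have h5 : (r : ℤ) ∣ y := hp.dvd_of_dvd_pow ((hp.dvd_or_dvd h4).resolve_left hp2)
      have h6 : (r : ℤ) ∣ (x : ℤ) ^ 2 := by
        have := dvd_sub hq (h5.mul_left (y : ℤ))
        have e1 : (x : ℤ) ^ 2 + y ^ 2 - y * y = (x : ℤ) ^ 2 := by ring
        rwa [e1] at this
      exact hcop (hp.dvd_of_dvd_pow h6) h5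
    exact hp.pow_dvd_of_dvd_mul_right M h2 h
  · left
    have h2 := hp.pow_dvd_of_dvd_mul_left M hq h
    by_cases hm : (r : ℤ) ∣ x - y
    · refine ⟨1, Or.inl rfl, ?_⟩
      have h3 : ¬ (r : ℤ) ∣ (x : ℤ) + y := by
        intro h4
        have h5 : (r : ℤ) ∣ 2 * (y : ℤ) := by
          have := dvd_sub h4 hm
          have e1 : (x : ℤ) + y - (x - y) = 2 * (y : ℤ) := by ring
          rwa [e1] at this
        have h6 : (r : ℤ) ∣ y := (hp.dvd_or_dvd h5).resolve_left hp2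
        refine hcop ?_ h6
        have := dvd_add hm h6
        have e1 : (x : ℤ) - y + y = x := by ring
        rwa [e1] at this
      rw [one_mul]
      exact hp.pow_dvd_of_dvd_mul_right M h3 h2
    · refine ⟨-1, Or.inr rfl, ?_⟩
      have h3 := hp.pow_dvd_of_dvd_mul_left M hm h2
      have e1 : (x : ℤ) - -1 * y = x + y := by ring
      rw [e1]
      exact h3

/-- the prime `2` -/
theorem two_cases {x y M : ℕ} (hxy : Nat.Coprime x y) (hlt : y < x)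
    (h : 2 ^ (M + 2) ∣ (x - y) * ((x + y) * (x ^ 2 + y ^ 2))) :
    ¬ 2 ∣ y ∧ ∃ e t : ℤ, (e = 1 ∨ e = -1) ∧ (x : ℤ) = e * y + 2 ^ M * t := by
  have h4 := sq_mod_four hxy
  have hev : ¬ (2 ∣ x ∧ 2 ∣ y) := by
    rintro ⟨h1, h2⟩
    have := Nat.dvd_gcd h1 h2
    rw [hxy] at this
    omega
  have h2dvd : 2 ∣ (x - y) * ((x + y) * (x ^ 2 + y ^ 2)) :=
    (dvd_pow_self 2 (by omega)).trans h
  -- `x`, `y` are odd
  have hy2 : y % 2 = 1 ∧ x % 2 = 1 := by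
    rcases Nat.mod_two_eq_zero_or_one x with hx | hx <;>
      rcases Nat.mod_two_eq_zero_or_one y with hy | hy
    · exact absurd ⟨by omega, by omega⟩ hev
    · exfalso
      rcases (Nat.Prime.dvd_mul Nat.prime_two).1 h2dvd with h5 | h5
      · omega
      · rcases (Nat.Prime.dvd_mul Nat.prime_two).1 h5 with h6 | h6
        · omega
        · have h7 : (x ^ 2 + y ^ 2) % 2 = 0 := Nat.mod_eq_zero_of_dvd h6
          rw [Nat.add_mod, Nat.pow_mod x, Nat.pow_mod y, hx, hy] at h7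
          norm_num at h7
    · exfalso
      rcases (Nat.Prime.dvd_mul Nat.prime_two).1 h2dvd with h5 | h5
      · omega
      · rcases (Nat.Prime.dvd_mul Nat.prime_two).1 h5 with h6 | h6
        · omega
        · have h7 : (x ^ 2 + y ^ 2) % 2 = 0 := Nat.mod_eq_zero_of_dvd h6
          rw [Nat.add_mod, Nat.pow_mod x, Nat.pow_mod y, hx, hy] at h7
          norm_num at h7
    · exact ⟨hy, hx⟩
  refine ⟨by omega, ?_⟩
  obtain ⟨m, hm⟩ : 2 ∣ x ^ 2 + y ^ 2 := by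
    refine Nat.dvd_of_mod_eq_zero ?_
    rw [Nat.add_mod, Nat.pow_mod x, Nat.pow_mod y, hy2.1, hy2.2]
  have hmodd : m % 2 = 1 := by
    rw [hm] at h4
    omega
  obtain ⟨D, hD⟩ : ∃ D, x = y + 2 * D := ⟨(x - y) / 2, by omega⟩
  have hDx : x - y = 2 * D := by omega
  have hsx : x + y = 2 * (D + y) := by omega
  have hstep : ∀ u w : ℕ, u % 2 = 1 → 2 ^ (M + 2) ∣ 2 * u * (2 * w * (2 * m)) →
      2 ^ M ∣ 2 * w := by
    intro u w hu h5
    have h6 : 2 ^ (M + 2) ∣ (2 * w) * 2 ^ 2 * (u * m) := by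
      have e1 : 2 * u * (2 * w * (2 * m)) = (2 * w) * 2 ^ 2 * (u * m) := by ring
      rwa [e1] at h5
    have h7 : Nat.Coprime (2 ^ (M + 2)) (u * m) := by
      refine Nat.Coprime.pow_left _ ?_
      refine (Nat.Prime.coprime_iff_not_dvd Nat.prime_two).2 ?_
      intro h8
      rcases (Nat.Prime.dvd_mul Nat.prime_two).1 h8 with h9 | h9 <;> omega
    have h8 := h7.dvd_of_dvd_mul_right h6
    rw [pow_add] at h8
    exact Nat.dvd_of_mul_dvd_mul_right (by norm_num) h8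
  rw [hDx, hsx, hm] at h
  by_cases hDo : D % 2 = 1
  · -- `x + y` is divisible by `2 ^ M`
    obtain ⟨t, ht⟩ := hstep D (D + y) hDo h
    refine ⟨-1, t, Or.inr rfl, ?_⟩
    have h5 : (x : ℤ) + y = 2 ^ M * t := by
      have : x + y = 2 ^ M * t := by rw [hsx, ht]
      exact_mod_cast congrArg (Nat.cast : ℕ → ℤ) this
    linarith
  · have h5 : 2 ^ (M + 2) ∣ 2 * (D + y) * (2 * D * (2 * m)) := by
      have e1 : 2 * D * (2 * (D + y) * (2 * m)) = 2 * (D + y) * (2 * D * (2 * m)) := by ring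
      rwa [e1] at h
    obtain ⟨t, ht⟩ := hstep (D + y) D (by omega) h5
    refine ⟨1, t, Or.inl rfl, ?_⟩
    have h6 : (x : ℤ) = y + 2 ^ M * t := by
      have : x = y + 2 ^ M * t := by rw [← ht]; exact hD
      exact_mod_cast congrArg (Nat.cast : ℕ → ℤ) this
    rw [one_mul]
    exact h6

/-! ### real estimates -/

theorem final_rg {C₁ A l v k : ℝ} (hC : 1 ≤ C₁) (hl : 0 < l) (hA : A ≤ C₁ * l) (hv0 : 0 ≤ v)
    (hv : v ≤ 2 * l) (hk : 0 ≤ Real.log k)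
    (h : k * v ≤ C₁ * A * (1 + Real.log k) ^ 2 ∨ k ≤ C₁) :
    k * v ≤ (C₁ ^ 2 + 2 * C₁) * l * (1 + Real.log k) ^ 2 := by
  have hsq : 1 ≤ (1 + Real.log k) ^ 2 := by nlinarith
  rcases h with h | h
  · refine h.trans ?_
    refine mul_le_mul_of_nonneg_right ?_ (by positivity)
    nlinarith
  · have h1 : k * v ≤ C₁ * (2 * l) :=
      mul_le_mul h hv hv0 (by linarith)
    refine h1.trans ?_
    have h2 : C₁ * (2 * l) ≤ (C₁ ^ 2 + 2 * C₁) * l := by nlinarith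
    refine h2.trans ?_
    exact le_mul_of_one_le_right (by positivity) hsq

theorem v_le {r c : ℕ} (hr : r.Prime) (hc : 2 ≤ c) :
    (padicValNat r c : ℝ) ≤ 2 * Real.log c := by
  have : Fact r.Prime := ⟨hr⟩
  have hl2 : (1 : ℝ) / 2 ≤ Real.log 2 := by
    have := Real.log_two_gt_d9
    linarith
  have h5 : (r : ℝ) ^ padicValNat r c ≤ c := by
    exact_mod_cast Nat.le_of_dvd (by omega) pow_padicValNat_dvd
  have h6 : (padicValNat r c : ℝ) * Real.log r ≤ Real.log c := by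
    rw [← Real.log_pow]
    exact Real.log_le_log (by have := hr.pos; positivity) h5
  have h7 : Real.log 2 ≤ Real.log r :=
    Real.log_le_log (by norm_num) (by exact_mod_cast hr.two_le)
  have h8 : (0 : ℝ) ≤ (padicValNat r c : ℝ) := Nat.cast_nonneg _
  nlinarith

end R3D

open R3D in
/-- **R3D** -/
theorem r3d : Stmt_Cyd → Stmt_Kup → Stmt_Rg → Stmt_Ltk → Stmt_Sqf → Stmt_Ltr → Stmt_Arr →
    Stmt_R3d := by
  intro hcyd hkup hrg hltk _ _ _ r hr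
  obtain ⟨K, _, _, ζ, τ, hζ, hτ, hfin, hdisc⟩ := hcyd 4 (Or.inr (Or.inl rfl))
  obtain ⟨C0, hC0, hkup⟩ := hkup
  set S : ℝ := Real.exp (((4 : ℕ) : ℝ) ^ C0) with hS
  have hS1 : 1 ≤ S := by
    rw [hS]
    exact Real.one_le_exp (by positivity)
  obtain ⟨P, hP, hP0, hrP⟩ := exists_prime (K := K) hr.two_le
  obtain ⟨C1, hC1, hrg⟩ := hrg K P (S + 10) hP hP0 (by linarith)
  obtain ⟨C2, hC2, hltk⟩ := hltk K P hP hP0
  set C3 : ℝ := C1 + (2 * S + 16) with hC3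
  refine ⟨C3 ^ 2 + 2 * C3 + 3 * C2 * (2 * S + 16) + 6, by nlinarith, ?_⟩
  intro x y c k hx hy hxy hk hc hrc hE
  have hEN : y ^ 4 + c ^ k = x ^ 4 := by
    have h1 : (y : ℤ) ^ 4 + (c : ℤ) ^ k = (x : ℤ) ^ 4 := by linarith
    exact_mod_cast h1
  have hlt : y < x := by
    by_contra h
    have h1 : x ^ 4 ≤ y ^ 4 := Nat.pow_le_pow_left (by omega) 4
    have h2 : 0 < c ^ k := by positivity
    omega
  have : Fact r.Prime := ⟨hr⟩
  have hv1 : 1 ≤ padicValNat r c := one_le_padicValNat_of_dvd (by omega) hrc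
  set v := padicValNat r c with hv
  have hM1 : 1 ≤ k * v := Nat.one_le_iff_ne_zero.mpr (by positivity)
  have hcM : r ^ (k * v) ∣ c ^ k := by
    rw [mul_comm, pow_mul]
    exact pow_dvd_pow_of_dvd pow_padicValNat_dvd k
  -- logarithms
  have hl2 : (1 : ℝ) / 2 ≤ Real.log 2 := by
    have := Real.log_two_gt_d9
    linarith
  have hlc : Real.log 2 ≤ Real.log c :=
    Real.log_le_log (by norm_num) (by exact_mod_cast hc)
  have hlc0 : 0 < Real.log c := by linarith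
  have hlk : 0 ≤ Real.log k := Real.log_natCast_nonneg k
  have hsq : 1 ≤ (1 + Real.log k) ^ 2 := by nlinarith
  have hvle : (v : ℝ) ≤ 2 * Real.log c := v_le hr hc
  have hv0 : (0 : ℝ) ≤ v := Nat.cast_nonneg _
  set A : ℝ := (2 * S + 16) * Real.log c with hA
  have hA1 : 1 ≤ A := by rw [hA]; nlinarith
  have hAC : A ≤ C3 * Real.log c := by
    rw [hA, hC3]
    exact mul_le_mul_of_nonneg_right (by linarith) hlc0.le
  have hAle : S * Real.log c ≤ A := by rw [hA]; nlinarith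
  have hC3' : 1 ≤ C3 := by rw [hC3]; linarith
  -- from the bound with `C3` to the final one
  have hup : ∀ Z : ℝ, Z ≤ (C3 ^ 2 + 2 * C3) * Real.log c * (1 + Real.log k) ^ 2 →
      Z ≤ (C3 ^ 2 + 2 * C3 + 3 * C2 * (2 * S + 16) + 6) * Real.log c *
        (1 + Real.log k) ^ 2 := by
    intro Z hZ
    refine hZ.trans (mul_le_mul_of_nonneg_right (mul_le_mul_of_nonneg_right ?_ hlc0.le)
      (by positivity))
    have : 0 ≤ 3 * C2 * (2 * S + 16) := by positivity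
    linarith
  -- the relation
  obtain ⟨s, α, hs1, hsS, hα, hτα, hrel, hPα, hPτα⟩ :=
    hkup K 4 ζ τ (x : ℤ) (y : ℤ) c k 1 (Or.inr rfl) hζ hτ hfin hdisc
      (Nat.isCoprime_iff_coprime.mpr hxy) hc (by omega)
      (Or.inl (by linarith)) (by norm_num)
  rw [pow_one, tau_z hζ hτ] at hrel hPτα
  rw [pow_one] at hPα
  have hsg : ((x : ℤ) : 𝓞 K) - -ζ * ((y : ℤ) : 𝓞 K) = (x : 𝓞 K) + ζ * (y : 𝓞 K) := by
    push_cast; ring
  have hsg' : ((x : ℤ) : 𝓞 K) - ζ * ((y : ℤ) : 𝓞 K) = (x : 𝓞 K) - ζ * (y : 𝓞 K) := by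
    push_cast; ring
  rw [hsg, hsg'] at hrel
  simp only [hsg] at hPτα
  simp only [hsg'] at hPα
  by_cases hr2 : r = 2
  · -- the prime 2
    subst hr2
    have h2P : (2 : 𝓞 K) ∈ P := by exact_mod_cast hrP
    have h4P : ((4 : ℕ) : 𝓞 K) ∈ P := by
      have e1 : ((4 : ℕ) : 𝓞 K) = 2 * 2 := by norm_num
      rw [e1]
      exact P.mul_mem_left _ h2P
    have hαP : α ∉ P := fun h => (hPα P hP h).2 h4P
    have hβP : τ α ∉ P := fun h => (hPτα P hP h).2 h4P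
    have hα0 : α ≠ 0 := fun h => hαP (by rw [h]; exact P.zero_mem)
    by_cases hsmall : k * v ≤ 3
    · have h1 : ((k : ℝ) * (v : ℝ)) ≤ 3 := by exact_mod_cast hsmall
      refine h1.trans ?_
      have h2 : (3 : ℝ) ≤ 6 * Real.log c := by linarith
      have h3 : 6 * Real.log c ≤ (C3 ^ 2 + 2 * C3 + 3 * C2 * (2 * S + 16) + 6) * Real.log c := by
        refine mul_le_mul_of_nonneg_right ?_ hlc0.le
        have : 0 ≤ 3 * C2 * (2 * S + 16) := by positivity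
        nlinarith
      refine (h2.trans h3).trans ?_
      refine le_mul_of_one_le_right ?_ hsq
      linarith
    · obtain ⟨M, hM⟩ : ∃ M, k * v = M + 3 := ⟨k * v - 3, by omega⟩
      have hdvd : 2 ^ (M + 1 + 2) ∣ (x - y) * ((x + y) * (x ^ 2 + y ^ 2)) := by
        rw [factor hlt hEN]
        have e1 : M + 1 + 2 = k * v := by omega
        rw [e1]
        exact hcM
      obtain ⟨hy2, e, t, he, hxe⟩ := two_cases hxy hlt hdvd
      have hyP : (y : 𝓞 K) ∉ P := by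
        intro h
        have hyodd : y % 2 = 1 := by omega
        apply hP.ne_top
        rw [Ideal.eq_top_iff_one]
        have h3 : (y : 𝓞 K) - ((y / 2 : ℕ) : 𝓞 K) * 2 ∈ P :=
          P.sub_mem h (P.mul_mem_left _ h2P)
        have h4 : (y : 𝓞 K) - ((y / 2 : ℕ) : 𝓞 K) * 2 = 1 := by
          have h5 : y = 2 * (y / 2) + 1 := by omega
          have h6 : (y : 𝓞 K) = 2 * ((y / 2 : ℕ) : 𝓞 K) + 1 := by
            exact_mod_cast congrArg (Nat.cast : ℕ → 𝓞 K) h5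
          rw [h6]
          have h7 : (2 * (y / 2) + 1) / 2 = y / 2 := by omega
          linear_combination (0 : 𝓞 K)
        rwa [h4] at h3
      have hmem := caseB hζ hP h2P hyP he (M := M) hrel hxe
      have hne := alpha_ne hζ hxy hy hlt hs1 hα0 hrel
      have h5 := hltk (τ α) α (4 * k) M A hβP hαP (by omega) hA1 (HB_mono hτα hAle)
        (HB_mono hα hAle) hne hmem
      have h6 : Real.log ((4 * k : ℕ) : ℝ) ≤ 2 + Real.log k := by
        push_cast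
        rw [Real.log_mul (by norm_num) (by positivity)]
        have h7 : Real.log 4 ≤ 2 := by
          have e1 : (4 : ℝ) = 2 ^ 2 := by norm_num
          rw [e1, Real.log_pow]
          have := Real.log_two_lt_d9
          push_cast
          linarith
        linarith
      have h7 : (M : ℝ) ≤ 3 * C2 * (2 * S + 16) * Real.log c * (1 + Real.log k) ^ 2 := by
        refine h5.trans ?_
        have h8 : 1 + Real.log ((4 * k : ℕ) : ℝ) ≤ 3 * (1 + Real.log k) ^ 2 := by nlinarith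
        have h9 : 0 ≤ C2 * A := by positivity
        refine (mul_le_mul_of_nonneg_left h8 h9).trans (le_of_eq ?_)
        rw [hA]
        ring
      have h8 : (k : ℝ) * (v : ℝ) = M + 3 := by exact_mod_cast congrArg (Nat.cast : ℕ → ℝ) hM
      rw [h8]
      have h9 : (3 : ℝ) ≤ 6 * Real.log c * (1 + Real.log k) ^ 2 := by
        have : (3 : ℝ) ≤ 6 * Real.log c := by linarith
        exact this.trans (le_mul_of_one_le_right (by linarith) hsq)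
      have h10 : 0 ≤ (C3 ^ 2 + 2 * C3) * Real.log c * (1 + Real.log k) ^ 2 := by positivity
      have h11 : (C3 ^ 2 + 2 * C3 + 3 * C2 * (2 * S + 16) + 6) * Real.log c *
          (1 + Real.log k) ^ 2 = (C3 ^ 2 + 2 * C3) * Real.log c * (1 + Real.log k) ^ 2 +
          3 * C2 * (2 * S + 16) * Real.log c * (1 + Real.log k) ^ 2 +
          6 * Real.log c * (1 + Real.log k) ^ 2 := by ring
      rw [h11]
      linarith
  · -- odd primes
    apply hup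
    have h2P := two_notMem hP hr hr2 hrP
    have hdvdZ : (r : ℤ) ^ (k * v) ∣ (x : ℤ) ^ 4 - (y : ℤ) ^ 4 := by
      have h1 : (x : ℤ) ^ 4 - (y : ℤ) ^ 4 = ((c ^ k : ℕ) : ℤ) := by
        push_cast; linarith
      rw [h1]
      exact_mod_cast hcM
    have hmemP : ∀ z : ℤ, (r : ℤ) ^ (k * v) ∣ z → (z : 𝓞 K) ∈ P ^ (k * v) := by
      rintro z ⟨d, hd⟩
      have h1 : (z : 𝓞 K) = ((r : ℕ) : 𝓞 K) ^ (k * v) * (d : 𝓞 K) := by
        rw [hd]; push_cast; ring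
      rw [h1]
      exact Ideal.mul_mem_right _ _ (Ideal.pow_mem_pow hrP _)
    -- `y` is not in `P`
    have hyP : (y : 𝓞 K) ∉ P := by
      intro h
      refine cop_notMem hP hxy ?_ h
      have h1 : (((x : ℤ) ^ 4 - (y : ℤ) ^ 4 : ℤ) : 𝓞 K) ∈ P :=
        Ideal.pow_le_self (by omega) (hmemP _ hdvdZ)
      have h2 : (y : 𝓞 K) ^ 4 ∈ P := Ideal.pow_mem_of_mem P h 4 (by norm_num)
      have h3 := P.add_mem h1 h2
      have e1 : (((x : ℤ) ^ 4 - (y : ℤ) ^ 4 : ℤ) : 𝓞 K) + (y : 𝓞 K) ^ 4 = (x : 𝓞 K) ^ 4 := by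
        push_cast; ring
      rw [e1] at h3
      exact hP.mem_of_pow_mem _ h3
    rcases odd_cases hr hr2 hxy hdvdZ with ⟨e, he, hfac⟩ | hfac
    · have hfacK : (x : 𝓞 K) - (e : 𝓞 K) * (y : 𝓞 K) ∈ P ^ (k * v) := by
        have h1 := hmemP _ hfac
        have e1 : (((x : ℤ) - e * y : ℤ) : 𝓞 K) = (x : 𝓞 K) - (e : 𝓞 K) * (y : 𝓞 K) := by
          push_cast; ring
        rwa [e1] at h1
      obtain ⟨g1, g2, g3, g4, g5, g6, g7, g8⟩ := caseA hζ hP h2P hyP he hM1 hsS hrel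
        (fun h => (hPα P hP h).1) (fun h => (hPτα P hP h).1) hfacK
      have hα0 : α ≠ 0 := fun h => g4 (by rw [h]; exact P.zero_mem)
      have hne := alpha_ne hζ hxy hy hlt hs1 hα0 hrel
      have h5 := hrg (((e : 𝓞 K) - ζ) ^ s) (((e : 𝓞 K) + ζ) ^ s) (τ α) α k (k * v) A
        g1 g2 g3 g4 (by omega) hA1 (HB_mono g5 (by linarith)) (HB_mono g6 (by linarith))
        (HB_mono hτα hAle) (HB_mono hα hAle)
        (Or.inr ⟨4, by norm_num, by push_cast; linarith, g7, hne⟩) g8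
      push_cast at h5
      refine final_rg hC3' hlc0 hAC hv0 hvle hlk ?_
      rcases h5 with h5 | h5
      · left
        refine h5.trans ?_
        refine mul_le_mul_of_nonneg_right (mul_le_mul_of_nonneg_right ?_ (by linarith))
          (by positivity)
        rw [hC3]; linarith
      · right
        rw [hC3]; linarith
    · have hfacK : ((x ^ 2 + y ^ 2 : ℕ) : 𝓞 K) ∈ P ^ (k * v) := by
        have h1 := hmemP _ hfac
        have e1 : (((x : ℤ) ^ 2 + (y : ℤ) ^ 2 : ℤ) : 𝓞 K) = ((x ^ 2 + y ^ 2 : ℕ) : 𝓞 K) := by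
          push_cast; ring
        rwa [e1] at h1
      obtain ⟨κ, a₁, a₂, hκ, ha1, ha2, ha1c, ha2c, hn1, hn2, hcong⟩ :=
        caseC hP h2P hxy hy hlt (by omega) hM1 hc hEN hfacK
      have hlog : ∀ a : ℕ, 1 ≤ a → a ≤ 4 * c → Real.log ((a ^ 4 : ℕ) : ℝ) ≤ A := by
        intro a h1 h2
        push_cast
        rw [Real.log_pow]
        have h3 : Real.log a ≤ Real.log 4 + Real.log c := by
          rw [← Real.log_mul (by norm_num) (by positivity)]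
          refine Real.log_le_log (by positivity) ?_
          exact_mod_cast h2
        have h4 : Real.log 4 = 2 * Real.log 2 := by
          have e1 : (4 : ℝ) = 2 ^ 2 := by norm_num
          rw [e1, Real.log_pow]; push_cast; ring
        rw [hA]
        push_cast
        nlinarith
      have hκ1 : 1 ≤ κ := by rcases hκ with ⟨rfl, -⟩ | rfl <;> norm_num
      have hκlog : Real.log (κ : ℝ) ≤ S + 10 := by
        rcases hκ with ⟨rfl, -⟩ | rfl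
        · simp; linarith
        · have e1 : (((8 ^ 4 : ℕ) : ℕ) : ℝ) = 2 ^ 12 := by norm_num
          rw [e1, Real.log_pow]
          have := Real.log_two_lt_d9
          push_cast
          linarith
      have hκP : ((κ : ℕ) : 𝓞 K) ∉ P := by
        rcases hκ with ⟨rfl, -⟩ | rfl
        · intro h
          rw [Nat.cast_one] at h
          exact hP.ne_top ((Ideal.eq_top_iff_one P).mpr h)
        · intro h
          have e1 : ((8 ^ 4 : ℕ) : 𝓞 K) = 2 ^ 12 := by norm_num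
          rw [e1] at h
          exact h2P (hP.mem_of_pow_mem _ h)
      have h1P : ((1 : ℕ) : 𝓞 K) ∉ P := by
        intro h
        rw [Nat.cast_one] at h
        exact hP.ne_top ((Ideal.eq_top_iff_one P).mpr h)
      have hapow : ∀ a : ℕ, ((a : ℕ) : 𝓞 K) ∉ P → ((a ^ 4 : ℕ) : 𝓞 K) ∉ P := by
        intro a h h1
        push_cast at h1
        exact h (hP.mem_of_pow_mem _ h1)
      have h5 := hrg ((κ : ℕ) : 𝓞 K) ((1 : ℕ) : 𝓞 K) ((a₁ ^ 4 : ℕ) : 𝓞 K) ((a₂ ^ 4 : ℕ) : 𝓞 K)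
        k (k * v) A hκP h1P (hapow _ hn1) (hapow _ hn2) (by omega) hA1
        (HB_nat hκlog hκ1) (HB_nat (by simp; linarith) (le_refl 1))
        (HB_nat (hlog _ ha1 ha1c) (Nat.one_le_pow _ _ ha1))
        (HB_nat (hlog _ ha2 ha2c) (Nat.one_le_pow _ _ ha2)) (by
          rcases hκ with ⟨rfl, hne⟩ | rfl
          · right
            refine ⟨1, le_refl 1, by push_cast; linarith, rfl, ?_⟩
            intro h
            rw [one_mul] at h
            have h6 : (a₁ ^ 4) ^ k = (a₂ ^ 4) ^ k := by exact_mod_cast h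
            apply hne
            have h7 : (a₁ ^ k) ^ 4 = (a₂ ^ k) ^ 4 := by
              rw [← pow_mul, mul_comm k 4, pow_mul, h6, ← pow_mul, mul_comm 4 k, pow_mul]
            exact Nat.pow_left_injective (by norm_num) h7
          · left
            intro j hj h
            have h6 : (8 ^ 4) ^ j = 1 ^ j := by exact_mod_cast h
            rw [one_pow] at h6
            have h7 : 1 < (8 ^ 4) ^ j := Nat.one_lt_pow (by omega) (by norm_num)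
            omega) hcong
      push_cast at h5
      refine final_rg hC3' hlc0 hAC hv0 hvle hlk ?_
      rcases h5 with h5 | h5
      · left
        refine h5.trans ?_
        refine mul_le_mul_of_nonneg_right (mul_le_mul_of_nonneg_right ?_ (by linarith))
          (by positivity)
        rw [hC3]; linarith
      · right
        rw [hC3]; linarith

end Pool.Agent.Work.MP_2738db_nt_Y.helper79
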