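import Pool.Agent.Work.MP_2738db_nt_Y.Interface4

/-!
Theorem Y (Fermat-Catalan, MP_2738db), block CBR2 (helper79): the `r`-part of `x ^ p`, `q = 2`.
-/

set_option autoImplicit false

namespace Pool.Agent.Work.MP_2738db_nt_Y.helper79

open Pool.Agent.Work.MP_2738db_nt_Y

/-- the body of `Stmt_Arr` -/
def ArrC (C : ℝ) : Prop :=
  ∀ (r X₁ X₂ Y k₀ l j V : ℕ) (A B : ℝ), r.Prime → ¬ r ∣ X₁ → ¬ r ∣ X₂ →
    ¬ r ∣ Y → 2 ≤ Y → 1 ≤ k₀ → 1 ≤ l → 1 ≤ j → Nat.Coprime l k₀ → 1 ≤ A → 1 ≤ B →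
    Real.log X₁ ≤ A → Real.log X₂ ≤ A → Real.log Y ≤ B → (k₀ : ℝ) ≤ A * l →
    C * r * B * (1 + Real.log l) ≤ l →
    (r : ℤ) ^ V ∣ ((X₁ : ℤ) ^ l) ^ (2 * j) - ((X₂ : ℤ) ^ l * (Y : ℤ) ^ k₀) ^ (2 * j) →
    V * Real.log r ≤ C * r ^ 3 * (A * B) * (1 + Real.log l) ^ 2 + Real.log j

theorem logfacts {p : ℕ} (hp : 3 ≤ p) :
    1 ≤ Real.log p ∧ Real.log p ≤ Real.log p ^ 3 ∧ (1 + Real.log p) ^ 2 ≤ 4 * Real.log p ^ 3 ∧
      1 + Real.log p ≤ 2 * Real.log p ^ 3 := by
  have h1 : 1 ≤ Real.log p := by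
    rw [← Real.log_exp 1]
    apply Real.log_le_log (Real.exp_pos 1)
    have h2 := Real.exp_one_lt_d9
    have h3 : (3 : ℝ) ≤ p := by exact_mod_cast hp
    linarith
  set L := Real.log p
  have h2 : L ≤ L ^ 2 := by nlinarith
  have h3 : L ^ 2 ≤ L ^ 3 := by nlinarith
  exact ⟨h1, by linarith, by nlinarith, by linarith⟩

theorem dvd_of_sq {r a : ℕ} (hr : r.Prime) (h : r ^ 2 ∣ 2 * a) : r ∣ a := by
  by_contra hna
  have h1 : Nat.Coprime (r ^ 2) a := Nat.Coprime.pow_left 2 ((Nat.Prime.coprime_iff_not_dvd hr).2 hna)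
  have h2 : r ^ 2 ∣ 2 := Nat.Coprime.dvd_of_dvd_mul_right h1 h
  have h3 := Nat.le_of_dvd (by norm_num) h2
  have h4 := hr.two_le
  nlinarith

/-- conclusion of the case of two logarithms -/
theorem arr_use {C₀ : ℝ} (hC₀ : 1 ≤ C₀) (hArr : ArrC C₀) {p r X₁ X₂ k₀ V : ℕ} {t : ℝ} (hp : 3 ≤ p)
    (hr : r.Prime) (h1 : ¬ r ∣ X₁) (h2 : ¬ r ∣ X₂) (h3 : ¬ r ∣ 2) (hk : 1 ≤ k₀) (hkp : k₀ ≤ p)
    (hco : Nat.Coprime p k₀) (ht : Real.log 2 ≤ t) (hX₁ : Real.log X₁ ≤ t) (hX₂ : Real.log X₂ ≤ t)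
    (hcond : C₀ * r * (1 + Real.log p) ≤ p)
    (hd : (r : ℤ) ^ V ∣ ((X₁ : ℤ) ^ p) ^ 2 - ((X₂ : ℤ) ^ p * 2 ^ k₀) ^ 2) :
    V * Real.log r ≤ (8 * C₀ + 16) * r ^ 10 * (Real.log p ^ 3 * t) := by
  obtain ⟨f1, f2, f3, f4⟩ := logfacts hp
  have hl2 := Real.log_two_gt_d9
  have hl2' := Real.log_two_lt_d9
  have hpr : (3 : ℝ) ≤ p := by exact_mod_cast hp
  have hrr : (2 : ℝ) ≤ r := by exact_mod_cast hr.two_le
  have ht0 : 0 < t := by linarith
  have hkr : (k₀ : ℝ) ≤ p := by exact_mod_cast hkp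
  have h := hArr r X₁ X₂ 2 k₀ p 1 V (2 * t) 1 hr h1 h2 h3 le_rfl hk (by omega) le_rfl hco
    (by linarith) le_rfl (by linarith) (by linarith) (by push_cast; linarith) (by nlinarith)
    (by rw [mul_one]; exact hcond) (by simpa using hd)
  rw [Nat.cast_one, Real.log_one, add_zero] at h
  refine h.trans ?_
  have e1 : C₀ * r ^ 3 * (2 * t * 1) * (1 + Real.log p) ^ 2
      ≤ C₀ * r ^ 3 * (2 * t * 1) * (4 * Real.log p ^ 3) :=
    mul_le_mul_of_nonneg_left f3 (by positivity)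
  have e2 : C₀ * r ^ 3 * (2 * t * 1) * (4 * Real.log p ^ 3)
      = (8 * C₀) * r ^ 3 * (Real.log p ^ 3 * t) := by ring
  have hL0 : 0 < Real.log p := by linarith
  have e3 : (8 * C₀) * r ^ 3 * (Real.log p ^ 3 * t)
      ≤ (8 * C₀ + 16) * r ^ 10 * (Real.log p ^ 3 * t) := by
    apply mul_le_mul_of_nonneg_right _ (by positivity)
    apply mul_le_mul (by linarith) _ (by positivity) (by positivity)
    exact pow_le_pow_right₀ (by linarith) (by norm_num)
  linarith

/-- conclusion of the case of one logarithm -/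
theorem ltr_use (hLtr : Stmt_Ltr) {C₀ : ℝ} (hC₀ : 1 ≤ C₀) {p r U z W : ℕ} {t : ℝ} (hp : 3 ≤ p)
    (hr : r.Prime) (h1 : ¬ r ∣ U) (h2 : ¬ r ∣ z) (hU : 1 ≤ U) (hz : 1 ≤ z) (hne : U ≠ z)
    (ht : Real.log 2 ≤ t) (hUt : Real.log U ≤ t) (hzt : Real.log z ≤ t)
    (hd : (r : ℤ) ^ (W - 2) ∣ (U : ℤ) ^ (2 * p) - (z : ℤ) ^ (2 * p)) :
    W * Real.log r ≤ (8 * C₀ + 16) * r ^ 10 * (Real.log p ^ 3 * t) := by
  obtain ⟨f1, f2, f3, f4⟩ := logfacts hp
  have hl2 := Real.log_two_gt_d9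
  have hl2' := Real.log_two_lt_d9
  have hpr : (3 : ℝ) ≤ p := by exact_mod_cast hp
  have hrr : (2 : ℝ) ≤ r := by exact_mod_cast hr.two_le
  have ht0 : 0 < t := by linarith
  have hr2 := hr.two_le
  obtain ⟨V', hV', hle⟩ := hLtr r U z p (W - 2) hr h1 h2 (by omega) hd
  have hne' : (U : ℤ) ^ (2 * (r - 1)) - (z : ℤ) ^ (2 * (r - 1)) ≠ 0 := by
    intro h
    have h3 : U ^ (2 * (r - 1)) = z ^ (2 * (r - 1)) := by
      have := sub_eq_zero.1 h
      exact_mod_cast this
    exact hne (Nat.pow_left_injective (by omega) h3)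
  have h3 : (r : ℤ) ^ V' ≤ |(U : ℤ) ^ (2 * (r - 1)) - (z : ℤ) ^ (2 * (r - 1))| :=
    Int.le_of_dvd (abs_pos.2 hne') ((dvd_abs _ _).2 hV')
  have h3r : (r : ℝ) ^ V' ≤ |(U : ℝ) ^ (2 * (r - 1)) - (z : ℝ) ^ (2 * (r - 1))| := by
    exact_mod_cast h3
  have hE : (1 : ℝ) ≤ Real.exp (2 * r * t) := Real.one_le_exp (by positivity)
  have hpow : ∀ X : ℕ, 1 ≤ X → Real.log X ≤ t → (X : ℝ) ^ (2 * (r - 1)) ≤ Real.exp (2 * r * t) := by
    intro X hX hXt
    have hX0 : (0 : ℝ) < X := by exact_mod_cast hX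
    rw [← Real.exp_log hX0, ← Real.exp_nat_mul]
    apply Real.exp_le_exp.2
    have h5 : ((2 * (r - 1) : ℕ) : ℝ) ≤ 2 * r := by
      have : 2 * (r - 1) ≤ 2 * r := by omega
      exact_mod_cast this
    exact mul_le_mul h5 hXt (Real.log_natCast_nonneg _) (by positivity)
  have h4 : (r : ℝ) ^ V' ≤ Real.exp (2 * r * t) := by
    refine h3r.trans ?_
    rw [abs_le]
    have a1 := hpow U hU hUt
    have a2 := hpow z hz hzt
    have a3 : (0 : ℝ) ≤ (U : ℝ) ^ (2 * (r - 1)) := by positivity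
    have a4 : (0 : ℝ) ≤ (z : ℝ) ^ (2 * (r - 1)) := by positivity
    constructor <;> linarith
  have h5 : (r : ℝ) ^ (W - 2) ≤ p * Real.exp (2 * r * t) := by
    have h6 : (r : ℝ) ^ (W - 2) ≤ p * (r : ℝ) ^ V' := by exact_mod_cast hle
    exact h6.trans (mul_le_mul_of_nonneg_left h4 (by positivity))
  have h6 : ((W - 2 : ℕ) : ℝ) * Real.log r ≤ Real.log p + 2 * r * t := by
    rw [← Real.log_pow, ← Real.log_exp (2 * r * t), ← Real.log_mul (by positivity) (by positivity)]
    exact Real.log_le_log (by positivity) h5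
  have hlr0 : 0 ≤ Real.log r := Real.log_natCast_nonneg _
  have hlr : Real.log r ≤ r := (Real.log_le_sub_one_of_pos (by linarith)).trans (by linarith)
  have h7 : (W : ℝ) ≤ ((W - 2 : ℕ) : ℝ) + 2 := by
    have : W ≤ (W - 2) + 2 := by omega
    exact_mod_cast this
  have h8 : W * Real.log r ≤ Real.log p + 2 * r * t + 2 * r := by
    have := mul_le_mul_of_nonneg_right h7 hlr0
    nlinarith
  refine h8.trans ?_
  have hL3 : 1 ≤ Real.log p ^ 3 := by linarith
  have h9 : Real.log p ≤ 2 * (Real.log p ^ 3 * t) := by nlinarith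
  have h10 : 2 * r * t ≤ 2 * r * (Real.log p ^ 3 * t) := by
    apply mul_le_mul_of_nonneg_left _ (by positivity)
    nlinarith
  have h11 : 2 * (r : ℝ) ≤ 4 * r * (Real.log p ^ 3 * t) := by
    have : (1 : ℝ) ≤ 2 * (Real.log p ^ 3 * t) := by nlinarith
    nlinarith
  have h12 : (2 + 6 * r) * (Real.log p ^ 3 * t) ≤ (8 * C₀ + 16) * r ^ 10 * (Real.log p ^ 3 * t) := by
    apply mul_le_mul_of_nonneg_right _ (by positivity)
    have h13 : (r : ℝ) ≤ r ^ 10 := le_self_pow₀ (by linarith) (by norm_num)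
    nlinarith
  linarith

/-- the first and third arrangement -/
theorem diffcase (hSqf : Stmt_Sqf) (hLtr : Stmt_Ltr) {C₀ : ℝ} (hC₀ : 1 ≤ C₀) (hArr : ArrC C₀)
    (p x z r A B : ℕ) (hp : p.Prime) (hp5 : 5 ≤ p) (hco : Nat.Coprime A B) (hB : 1 ≤ B)
    (hBA : B < A) (hx : 1 ≤ x) (hz : 1 ≤ z) (hr : r.Prime) (hrx : r ∣ x) (hrz : ¬ r ∣ z)
    (heq : B ^ 2 + x ^ p = A ^ 2) (hw : z ^ p = A ∨ z ^ p = B)
    (hcond : C₀ * r * (1 + Real.log p) ≤ p) :
    ((p * padicValNat r x : ℕ) : ℝ) * Real.log r ≤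
      (8 * C₀ + 16) * r ^ 10 * (Real.log p ^ 3 * (2 * Real.log A / p)) := by
  have hl2 := Real.log_two_gt_d9
  have hl2' := Real.log_two_lt_d9
  have hpr : (5 : ℝ) ≤ p := by exact_mod_cast hp5
  have hp0 : (0 : ℝ) < p := by linarith
  have hA0 : (0 : ℝ) < A := by
    have : 0 < A := by omega
    exact_mod_cast this
  have hr2 := hr.two_le
  have hx2 : 2 ≤ x := hr2.trans (Nat.le_of_dvd (by omega) hrx)
  have hp2 : ¬ 2 ∣ p := by
    intro h
    have := (Nat.prime_dvd_prime_iff_eq Nat.prime_two hp).1 h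
    omega
  set t : ℝ := 2 * Real.log A / p with ht
  have hpt : p * t = 2 * Real.log A := by rw [ht]; field_simp
  -- sizes
  have hsz : ∀ X : ℕ, 1 ≤ X → X ^ p ≤ A ^ 2 → Real.log X ≤ t := by
    intro X hX h
    have h1 : p * Real.log X ≤ p * t := by
      rw [hpt, ← Real.log_pow]
      have h2 : (2 : ℝ) * Real.log A = Real.log (A ^ 2) := by rw [Real.log_pow]; norm_num
      rw [h2]
      apply Real.log_le_log
      · have : (0 : ℝ) < X := by exact_mod_cast hX
        positivity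
      · exact_mod_cast h
    exact le_of_mul_le_mul_left h1 hp0
  have ht2 : Real.log 2 ≤ t := by
    have h1 : 2 ^ p ≤ A ^ 2 := by
      calc 2 ^ p ≤ x ^ p := Nat.pow_le_pow_left hx2 p
        _ ≤ A ^ 2 := by omega
    exact_mod_cast hsz 2 (by norm_num) h1
  have hAA : A ≤ A ^ 2 := Nat.le_self_pow (by norm_num) A
  have hzA : z ^ p ≤ A := by
    rcases hw with h | h
    · exact h.le
    · rw [h]; exact hBA.le
  have hzt : Real.log z ≤ t := hsz z hz (hzA.trans hAA)
  have hrν : r ^ padicValNat r x ∣ x := pow_padicValNat_dvd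
  set ν := padicValNat r x with hνd
  have hcoAB : ∀ s : ℕ, s.Prime → s ∣ A → s ∣ B → False := by
    intro s hs h1 h2
    exact hs.one_lt.ne' (Nat.dvd_one.1 (hco ▸ Nat.dvd_gcd h1 h2))
  have hpowdvd : ∀ X : ℕ, r ^ ν ∣ X → (r : ℤ) ^ (p * ν) ∣ (X : ℤ) ^ p := by
    intro X h
    have h1 : r ^ (p * ν) ∣ X ^ p := by
      rw [mul_comm, pow_mul]
      exact pow_dvd_pow_of_dvd h p
    exact_mod_cast h1
  have hxz : (x : ℤ) ^ p = ((A : ℤ) - B) * (A + B) := by
    have h1 : (B : ℤ) ^ 2 + (x : ℤ) ^ p = (A : ℤ) ^ 2 := by exact_mod_cast heq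
    linear_combination h1
  rcases hSqf A B x p hco hB hBA (by omega) heq with ⟨U, v, hU1, hUv, hAU, hAv⟩ | ⟨U, v, hU1, hv1, h⟩
  · -- first case
    have hAUz : (A : ℤ) = B + (U : ℤ) ^ p := by exact_mod_cast hAU
    have hAvz : (A : ℤ) + B = (v : ℤ) ^ p := by exact_mod_cast hAv
    have hxUv : x = U * v := by
      apply Nat.pow_left_injective (by omega : p ≠ 0)
      have h1 : (x : ℤ) ^ p = ((U * v : ℕ) : ℤ) ^ p := by
        rw [hxz, hAvz, hAUz]
        push_cast
        ring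
      exact_mod_cast h1
    have hv0 : 1 ≤ v := by omega
    have hvA : v ^ p ≤ A ^ 2 := by
      rw [← hAv]
      have : 2 ≤ A := by omega
      nlinarith
    have hvt : Real.log v ≤ t := hsz v hv0 hvA
    have hUt : Real.log U ≤ t := hsz U hU1 ((Nat.pow_le_pow_left hUv.le p).trans hvA)
    have hnot : ¬ (r ∣ U ∧ r ∣ v) := by
      rintro ⟨h1, h2⟩
      have h3 : r ^ 2 ∣ U ^ p :=
        (pow_dvd_pow_of_dvd h1 2).trans (pow_dvd_pow U (by omega))
      have h4 : r ^ 2 ∣ v ^ p :=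
        (pow_dvd_pow_of_dvd h2 2).trans (pow_dvd_pow v (by omega))
      have h5 : r ^ 2 ∣ 2 * A := by
        have : 2 * A = U ^ p + v ^ p := by omega
        rw [this]
        exact Dvd.dvd.add h3 h4
      have h6 : r ^ 2 ∣ 2 * B := by
        have h7 : v ^ p = 2 * B + U ^ p := by omega
        rw [h7] at h4
        exact (Nat.dvd_add_left h3).1 h4
      exact hcoAB r hr (dvd_of_sq hr h5) (dvd_of_sq hr h6)
    have h2w : 2 * (z : ℤ) ^ p = (v : ℤ) ^ p + (U : ℤ) ^ p ∨
        2 * (z : ℤ) ^ p = (v : ℤ) ^ p - (U : ℤ) ^ p := by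
      rcases hw with h | h
      · left
        have h1 : (z : ℤ) ^ p = A := by exact_mod_cast h
        rw [h1]
        linarith
      · right
        have h1 : (z : ℤ) ^ p = B := by exact_mod_cast h
        rw [h1]
        linarith
    have hr2' : ∀ h : r ∣ 2, False := by
      intro h
      have h1 : r = 2 := (Nat.prime_dvd_prime_iff_eq hr Nat.prime_two).1 h
      subst h1
      -- both even
      have h3 : 2 ∣ U ^ p + v ^ p := ⟨A, by omega⟩
      rcases (Nat.prime_two.dvd_mul).1 (hxUv ▸ hrx) with h4 | h4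
      · have h5 : 2 ∣ U ^ p := dvd_pow h4 (by omega)
        have h6 : 2 ∣ v ^ p := (Nat.dvd_add_right h5).1 h3
        exact hnot ⟨h4, Nat.prime_two.dvd_of_dvd_pow h6⟩
      · have h5 : 2 ∣ v ^ p := dvd_pow h4 (by omega)
        have h6 : 2 ∣ U ^ p := (Nat.dvd_add_left h5).1 h3
        exact hnot ⟨Nat.prime_two.dvd_of_dvd_pow h6, h4⟩
    rcases (hr.dvd_mul).1 (hxUv ▸ hrx) with h4 | h4
    · -- `r ∣ U`
      have h5 : ¬ r ∣ v := fun h => hnot ⟨h4, h⟩
      have h6 : r ^ ν ∣ U := by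
        have h7 : Nat.Coprime (r ^ ν) v :=
          Nat.Coprime.pow_left ν ((Nat.Prime.coprime_iff_not_dvd hr).2 h5)
        exact Nat.Coprime.dvd_of_dvd_mul_right h7 (hxUv ▸ hrν)
      have h7 := hpowdvd U h6
      refine arr_use hC₀ hArr (by omega) hr h5 hrz hr2' le_rfl (by omega) (Nat.coprime_one_right p)
        ht2 hvt hzt hcond ?_
      rcases h2w with h8 | h8
      · have h9 : ((v : ℤ) ^ p) ^ 2 - ((z : ℤ) ^ p * 2 ^ 1) ^ 2 =
            (U : ℤ) ^ p * (-((v : ℤ) ^ p + 2 * (z : ℤ) ^ p)) := by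
          have h10 : (U : ℤ) ^ p = 2 * (z : ℤ) ^ p - (v : ℤ) ^ p := by linarith
          rw [h10]
          ring
        rw [h9]
        exact Dvd.dvd.mul_right h7 _
      · have h9 : ((v : ℤ) ^ p) ^ 2 - ((z : ℤ) ^ p * 2 ^ 1) ^ 2 =
            (U : ℤ) ^ p * ((v : ℤ) ^ p + 2 * (z : ℤ) ^ p) := by
          have h10 : (U : ℤ) ^ p = (v : ℤ) ^ p - 2 * (z : ℤ) ^ p := by linarith
          rw [h10]
          ring
        rw [h9]
        exact Dvd.dvd.mul_right h7 _
    · -- `r ∣ v`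
      have h5 : ¬ r ∣ U := fun h => hnot ⟨h, h4⟩
      have h6 : r ^ ν ∣ v := by
        have h7 : Nat.Coprime (r ^ ν) U :=
          Nat.Coprime.pow_left ν ((Nat.Prime.coprime_iff_not_dvd hr).2 h5)
        exact Nat.Coprime.dvd_of_dvd_mul_left h7 (hxUv ▸ hrν)
      have h7 := hpowdvd v h6
      refine arr_use hC₀ hArr (by omega) hr h5 hrz hr2' le_rfl (by omega) (Nat.coprime_one_right p)
        ht2 hUt hzt hcond ?_
      rcases h2w with h8 | h8
      · have h9 : ((U : ℤ) ^ p) ^ 2 - ((z : ℤ) ^ p * 2 ^ 1) ^ 2 =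
            (v : ℤ) ^ p * (-((U : ℤ) ^ p + 2 * (z : ℤ) ^ p)) := by
          have h10 : (v : ℤ) ^ p = 2 * (z : ℤ) ^ p - (U : ℤ) ^ p := by linarith
          rw [h10]
          ring
        rw [h9]
        exact Dvd.dvd.mul_right h7 _
      · have h9 : ((U : ℤ) ^ p) ^ 2 - ((z : ℤ) ^ p * 2 ^ 1) ^ 2 =
            (v : ℤ) ^ p * ((U : ℤ) ^ p - 2 * (z : ℤ) ^ p) := by
          have h10 : (v : ℤ) ^ p = (U : ℤ) ^ p + 2 * (z : ℤ) ^ p := by linarith
          rw [h10]
          ring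
        rw [h9]
        exact Dvd.dvd.mul_right h7 _
  · -- second case
    have h22 : (2 : ℤ) ^ (p - 1) = 2 * 2 ^ (p - 2) := by
      rw [← pow_succ']
      congr 1
      omega
    have h22n : 2 ^ (p - 1) = 2 * 2 ^ (p - 2) := by
      rw [← pow_succ']
      congr 1
      omega
    have h2p : (2 : ℤ) ^ p = 4 * 2 ^ (p - 2) := by
      have : (4 : ℤ) = 2 ^ 2 := by norm_num
      rw [this, ← pow_add]
      congr 1
      omega
    set c : ℤ := 2 ^ (p - 2) * (v : ℤ) ^ p with hc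
    have hAz : (A : ℤ) = (U : ℤ) ^ p + c := by
      rcases h with ⟨h1, h2⟩ | ⟨h1, h2⟩
      · have h1z : (A : ℤ) = B + 2 * (U : ℤ) ^ p := by exact_mod_cast h1
        have h2z : (A : ℤ) + B = 2 ^ (p - 1) * (v : ℤ) ^ p := by exact_mod_cast h2
        rw [h22] at h2z
        rw [hc]
        linarith
      · have h1z : (A : ℤ) = B + 2 ^ (p - 1) * (v : ℤ) ^ p := by exact_mod_cast h1
        have h2z : (A : ℤ) + B = 2 * (U : ℤ) ^ p := by exact_mod_cast h2
        rw [h22] at h1z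
        rw [hc]
        linarith
    have hBz : (B : ℤ) = c - (U : ℤ) ^ p ∨ (B : ℤ) = (U : ℤ) ^ p - c := by
      rcases h with ⟨h1, h2⟩ | ⟨h1, h2⟩
      · left
        have h1z : (A : ℤ) = B + 2 * (U : ℤ) ^ p := by exact_mod_cast h1
        linarith
      · right
        have h2z : (A : ℤ) + B = 2 * (U : ℤ) ^ p := by exact_mod_cast h2
        linarith
    have hxUv : x = 2 * (U * v) := by
      apply Nat.pow_left_injective (by omega : p ≠ 0)
      have h1 : (x : ℤ) ^ p = ((2 * (U * v) : ℕ) : ℤ) ^ p := by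
        rw [hxz]
        push_cast
        rw [mul_pow, mul_pow, h2p]
        rcases hBz with h2 | h2
        · rw [h2, hAz, hc]
          ring
        · rw [h2, hAz, hc]
          ring
      exact_mod_cast h1
    have hc0 : 0 < c := by
      rw [hc]
      have : (0 : ℤ) < v := by exact_mod_cast hv1
      positivity
    have hUA : U ^ p ≤ A := by
      have : (U : ℤ) ^ p ≤ A := by linarith
      exact_mod_cast this
    have hUt : Real.log U ≤ t := hsz U hU1 (hUA.trans hAA)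
    have hvA : v ^ p ≤ A := by
      have h1 : (v : ℤ) ^ p ≤ c := by
        rw [hc]
        have h2 : (1 : ℤ) ≤ 2 ^ (p - 2) := one_le_pow₀ (by norm_num)
        have h3 : (0 : ℤ) ≤ (v : ℤ) ^ p := by positivity
        nlinarith
      have h2 : (0 : ℤ) ≤ (U : ℤ) ^ p := by positivity
      have : (v : ℤ) ^ p ≤ A := by linarith
      exact_mod_cast this
    have hvt : Real.log v ≤ t := hsz v hv1 (hvA.trans hAA)
    have hnot : ∀ s : ℕ, s.Prime → s ∣ U → (s : ℤ) ∣ c → False := by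
      intro s hs h1 h2
      have h3 : (s : ℤ) ∣ (U : ℤ) ^ p := dvd_pow (by exact_mod_cast h1) (by omega)
      have h4 : (s : ℤ) ∣ A := by rw [hAz]; exact Dvd.dvd.add h3 h2
      have h5 : (s : ℤ) ∣ B := by
        rcases hBz with h6 | h6
        · rw [h6]; exact dvd_sub h2 h3
        · rw [h6]; exact dvd_sub h3 h2
      exact hcoAB s hs (by exact_mod_cast h4) (by exact_mod_cast h5)
    have h2c : (2 : ℤ) ∣ c := by
      rw [hc]
      exact Dvd.dvd.mul_right (dvd_pow_self 2 (by omega)) _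
    have hUodd : ¬ 2 ∣ U := fun h => hnot 2 Nat.prime_two h h2c
    have hw3 : (z : ℤ) ^ p = (U : ℤ) ^ p + c ∨ (z : ℤ) ^ p = c - (U : ℤ) ^ p ∨
        (z : ℤ) ^ p = (U : ℤ) ^ p - c := by
      rcases hw with h1 | h1
      · left
        rw [← hAz]
        exact_mod_cast h1
      · right
        have h2 : (z : ℤ) ^ p = B := by exact_mod_cast h1
        rw [h2]
        exact hBz
    by_cases hrU : r ∣ U
    · -- two logarithms
      have hr2' : ¬ r ∣ 2 := by
        intro h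
        have h1 : r = 2 := (Nat.prime_dvd_prime_iff_eq hr Nat.prime_two).1 h
        subst h1
        exact hUodd hrU
      have hrv : ¬ r ∣ v := by
        intro h
        refine hnot r hr hrU ?_
        rw [hc]
        exact Dvd.dvd.mul_left (dvd_pow (by exact_mod_cast h) (by omega)) _
      have h6 : r ^ ν ∣ U := by
        have h7 : Nat.Coprime (r ^ ν) v :=
          Nat.Coprime.pow_left ν ((Nat.Prime.coprime_iff_not_dvd hr).2 hrv)
        have h8 : Nat.Coprime (r ^ ν) 2 :=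
          Nat.Coprime.pow_left ν ((Nat.Prime.coprime_iff_not_dvd hr).2 hr2')
        exact Nat.Coprime.dvd_of_dvd_mul_right h7 (Nat.Coprime.dvd_of_dvd_mul_left h8 (hxUv ▸ hrν))
      have h7 := hpowdvd U h6
      have hcop : Nat.Coprime p (p - 2) := by
        have h1 : p = (p - 2) + 2 := by omega
        have h2 : Nat.Coprime ((p - 2) + 2) (p - 2) := by
          rw [Nat.coprime_self_add_left, Nat.coprime_comm, Nat.coprime_two_right,
            ← Nat.not_even_iff_odd, even_iff_two_dvd]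
          omega
        exact (congrArg (fun a => Nat.Coprime a (p - 2)) h1).mpr h2
      refine arr_use hC₀ hArr (by omega) hr hrz hrv hr2' (by omega : 1 ≤ p - 2) (by omega) hcop
        ht2 hzt hvt hcond ?_
      have h9 : (v : ℤ) ^ p * 2 ^ (p - 2) = c := by rw [hc]; ring
      rw [h9]
      rcases hw3 with h8 | h8 | h8
      · have h10 : ((z : ℤ) ^ p) ^ 2 - c ^ 2 = (U : ℤ) ^ p * ((z : ℤ) ^ p + c) := by
          rw [h8]; ring
        rw [h10]
        exact Dvd.dvd.mul_right h7 _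
      · have h10 : ((z : ℤ) ^ p) ^ 2 - c ^ 2 = (U : ℤ) ^ p * (-((z : ℤ) ^ p + c)) := by
          rw [h8]; ring
        rw [h10]
        exact Dvd.dvd.mul_right h7 _
      · have h10 : ((z : ℤ) ^ p) ^ 2 - c ^ 2 = (U : ℤ) ^ p * ((z : ℤ) ^ p - c) := by
          rw [h8]; ring
        rw [h10]
        exact Dvd.dvd.mul_right h7 _
    · -- one logarithm
      have hUz : U ≠ z := by
        intro h1
        subst h1
        rcases hw3 with h8 | h8 | h8
        · linarith
        · have h9 : c = 2 * (U : ℤ) ^ p := by linarith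
          have h10 : (2 : ℤ) ^ (p - 2) = 2 * 2 ^ (p - 3) := by
            rw [← pow_succ']
            congr 1
            omega
          have h11 : 2 ^ (p - 3) * (v : ℤ) ^ p = (U : ℤ) ^ p := by
            rw [hc, h10] at h9
            linarith
          have h12 : (2 : ℤ) ∣ (U : ℤ) ^ p := by
            rw [← h11]
            exact Dvd.dvd.mul_right (dvd_pow_self 2 (by omega)) _
          have h13 : 2 ∣ U ^ p := by exact_mod_cast h12
          exact hUodd (Nat.prime_two.dvd_of_dvd_pow h13)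
        · linarith
      have hdc : (r : ℤ) ^ (p * ν - 2) ∣ c := by
        have h7 : Nat.Coprime (r ^ ν) U :=
          Nat.Coprime.pow_left ν ((Nat.Prime.coprime_iff_not_dvd hr).2 hrU)
        have h8 : r ^ ν ∣ 2 * v := by
          refine Nat.Coprime.dvd_of_dvd_mul_left h7 ?_
          have h9 : U * (2 * v) = x := by rw [hxUv]; ring
          rw [h9]
          exact hrν
        by_cases hr2' : r = 2
        · have h9 := hpowdvd (2 * v) h8
          have h10 : ((2 * v : ℕ) : ℤ) ^ p = (r : ℤ) ^ 2 * c := by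
            rw [hr2', hc]
            push_cast
            rw [mul_pow, h2p]
            ring
          rw [h10] at h9
          have hν1 : 1 ≤ ν := by
            rw [hνd]
            have : Fact r.Prime := ⟨hr⟩
            exact one_le_padicValNat_of_dvd (by omega) hrx
          have h11 : p * ν = 2 + (p * ν - 2) := by
            have : 2 ≤ p * ν := by nlinarith
            omega
          rw [h11, pow_add] at h9
          have hr0 : (r : ℤ) ^ 2 ≠ 0 := by
            have : (r : ℤ) ≠ 0 := by exact_mod_cast hr.ne_zero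
            positivity
          exact (mul_dvd_mul_iff_left hr0).1 h9
        · have h9 : Nat.Coprime (r ^ ν) 2 :=
            Nat.Coprime.pow_left ν ((Nat.coprime_primes hr Nat.prime_two).2 hr2')
          have h10 := hpowdvd v (Nat.Coprime.dvd_of_dvd_mul_left h9 h8)
          refine (pow_dvd_pow _ (Nat.sub_le _ _)).trans ?_
          rw [hc]
          exact Dvd.dvd.mul_left h10 _
      refine ltr_use hLtr hC₀ (by omega) hr hrU hrz hU1 hz hUz ht2 hUt hzt ?_
      have h12 : (U : ℤ) ^ (2 * p) - (z : ℤ) ^ (2 * p) = ((U : ℤ) ^ p) ^ 2 - ((z : ℤ) ^ p) ^ 2 := by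
        rw [mul_comm 2 p, pow_mul, pow_mul]
      rw [h12]
      rcases hw3 with h8 | h8 | h8
      · have h10 : ((U : ℤ) ^ p) ^ 2 - ((z : ℤ) ^ p) ^ 2 = c * (-((U : ℤ) ^ p + (z : ℤ) ^ p)) := by
          rw [h8]; ring
        rw [h10]
        exact Dvd.dvd.mul_right hdc _
      · have h10 : ((U : ℤ) ^ p) ^ 2 - ((z : ℤ) ^ p) ^ 2 = c * ((U : ℤ) ^ p - (z : ℤ) ^ p) := by
          rw [h8]; ring
        rw [h10]
        exact Dvd.dvd.mul_right hdc _
      · have h10 : ((U : ℤ) ^ p) ^ 2 - ((z : ℤ) ^ p) ^ 2 = c * ((U : ℤ) ^ p + (z : ℤ) ^ p) := by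
          rw [h8]; ring
        rw [h10]
        exact Dvd.dvd.mul_right hdc _

/-- the second arrangement -/
theorem sumcase (hG : Stmt_Gfac) {C₁ : ℝ} (hC₁ : 1 ≤ C₁)
    (hGau : ∀ (p r V z : ℕ) (y u v : ℤ) (g : GaussianInt) (A : ℝ), p.Prime → r.Prime →
      3 ≤ p → IsUnit g → IsCoprime u v → Odd (u ^ 2 + v ^ 2) → (r : ℤ) ∣ u ^ 2 + v ^ 2 →
      (r : ℤ) ^ V ∣ u ^ 2 + v ^ 2 → ¬ r ∣ z → 1 ≤ z →
      g * (⟨u, v⟩ : GaussianInt) ^ p = ⟨y, (z : ℤ) ^ p⟩ →
      1 ≤ A → Real.log ((u : ℝ) ^ 2 + (v : ℝ) ^ 2) ≤ A → Real.log z ≤ A →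
      C₁ * r ^ 2 * (1 + Real.log p) ≤ p →
      p * V * Real.log r ≤ C₁ * r ^ 6 * A * (1 + Real.log p) ^ 2)
    (p x y z r : ℕ) (hp : p.Prime) (hp3 : 3 ≤ p) (hx : 1 ≤ x) (hy : 1 ≤ y) (hz : 1 ≤ z)
    (hco : Nat.Coprime y z) (hr : r.Prime) (hrx : r ∣ x) (hrz : ¬ r ∣ z)
    (heq : z ^ (p * 2) + y ^ 2 = x ^ p) (hcond : C₁ * r ^ 2 * (1 + Real.log p) ≤ p) :
    ((p * padicValNat r x : ℕ) : ℝ) * Real.log r ≤
      8 * C₁ * r ^ 10 * (Real.log p ^ 3 * Real.log x) := by
  obtain ⟨f1, f2, f3, f4⟩ := logfacts hp3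
  have hl2 := Real.log_two_gt_d9
  have hrν : r ^ padicValNat r x ∣ x := pow_padicValNat_dvd
  have hr2 := hr.two_le
  have hx2 : 2 ≤ x := hr2.trans (Nat.le_of_dvd (by omega) hrx)
  have hrr : (2 : ℝ) ≤ r := by exact_mod_cast hr2
  have hx0 : (0 : ℝ) < x := by exact_mod_cast hx
  obtain ⟨u, v, huv, hu, hv, hodd, huvx, hcase⟩ := hG y (z ^ p) x p (Nat.Coprime.pow_right p hco) hy
    (Nat.one_le_pow _ _ hz) (by omega) (by rw [← pow_mul]; omega)
  have hlogx : Real.log 2 ≤ Real.log x := Real.log_le_log (by norm_num) (by exact_mod_cast hx2)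
  have hlogz : Real.log z ≤ 2 * Real.log x := by
    have h1 : (z ^ 2) ^ p ≤ x ^ p := by
      rw [← pow_mul, mul_comm 2 p]
      omega
    have h2 : z ^ 2 ≤ x := (Nat.pow_le_pow_iff_left (by omega)).1 h1
    have h3 : z ≤ z ^ 2 := Nat.le_self_pow (by norm_num) z
    have h4 : Real.log z ≤ Real.log x :=
      Real.log_le_log (by exact_mod_cast hz) (by exact_mod_cast h3.trans h2)
    linarith
  have huvr : (u : ℝ) ^ 2 + (v : ℝ) ^ 2 = x := by exact_mod_cast huvx
  have hexist : ∃ (g : GaussianInt) (Y : ℤ), IsUnit g ∧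
      g * (⟨u, v⟩ : GaussianInt) ^ p = ⟨Y, (z : ℤ) ^ p⟩ := by
    have hi : IsUnit (⟨0, 1⟩ : GaussianInt) :=
      IsUnit.of_mul_eq_one (⟨0, -1⟩ : GaussianInt) (by
        apply Zsqrtd.ext <;> simp)
    have hi' : IsUnit (⟨0, -1⟩ : GaussianInt) :=
      IsUnit.of_mul_eq_one (⟨0, 1⟩ : GaussianInt) (by
        apply Zsqrtd.ext <;> simp)
    set a := (⟨u, v⟩ : GaussianInt) ^ p with ha
    rcases hcase with ⟨_, h⟩ | ⟨_, h⟩
    · push_cast at h
      rcases abs_choice a.im with h1 | h1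
      · refine ⟨1, a.re, isUnit_one, ?_⟩
        rw [one_mul]
        apply Zsqrtd.ext
        · rfl
        · rw [h, h1]
      · refine ⟨-1, -a.re, isUnit_one.neg, ?_⟩
        rw [neg_one_mul]
        apply Zsqrtd.ext
        · rfl
        · rw [h, h1]
          rfl
    · push_cast at h
      rcases abs_choice a.re with h1 | h1
      · refine ⟨⟨0, 1⟩, -a.im, hi, ?_⟩
        apply Zsqrtd.ext
        · rw [Zsqrtd.re_mul]
          simp
        · rw [Zsqrtd.im_mul, h, h1]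
          simp
      · refine ⟨⟨0, -1⟩, a.im, hi', ?_⟩
        apply Zsqrtd.ext
        · rw [Zsqrtd.re_mul]
          simp
        · rw [Zsqrtd.im_mul, h, h1]
          simp
  obtain ⟨g, Y, hg, hgY⟩ := hexist
  have h1 := hGau p r (padicValNat r x) z Y u v g (2 * Real.log x) hp hr hp3 hg huv hodd
    (by rw [huvx]; exact_mod_cast hrx) (by rw [huvx]; exact_mod_cast hrν) hrz hz hgY
    (by linarith) (by rw [huvr]; linarith) hlogz hcond
  push_cast
  refine h1.trans ?_
  have e1 : C₁ * r ^ 6 * (2 * Real.log x) * (1 + Real.log p) ^ 2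
      ≤ C₁ * r ^ 6 * (2 * Real.log x) * (4 * Real.log p ^ 3) :=
    mul_le_mul_of_nonneg_left f3 (by have : 0 < Real.log x := by linarith
                                     positivity)
  have e2 : C₁ * r ^ 6 * (2 * Real.log x) * (4 * Real.log p ^ 3)
      = (8 * C₁) * r ^ 6 * (Real.log p ^ 3 * Real.log x) := by ring
  have e3 : (8 * C₁) * r ^ 6 * (Real.log p ^ 3 * Real.log x)
      ≤ (8 * C₁) * r ^ 10 * (Real.log p ^ 3 * Real.log x) := by
    apply mul_le_mul_of_nonneg_right _ (by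
      have : 0 < Real.log x := by linarith
      have : 0 < Real.log p := by linarith
      positivity)
    apply mul_le_mul_of_nonneg_left _ (by positivity)
    exact pow_le_pow_right₀ (by linarith) (by norm_num)
  linarith

/-- **CBR2** -/
theorem cbr2 (hSqf : Stmt_Sqf) (hG : Stmt_Gfac) (hArr : Stmt_Arr) (hLtr : Stmt_Ltr)
    (hGau : Stmt_Gau) : Stmt_Cbr2 := by
  obtain ⟨C₀, hC₀, hArr⟩ := hArr
  obtain ⟨C₁, hC₁, hGau⟩ := hGau
  refine ⟨100 * (C₀ + C₁), by linarith, ?_⟩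
  intro p x y z r M hp hp3 hx hy hz hxz hxy hyz hr hrx hcases
  obtain ⟨f1, f2, f3, f4⟩ := logfacts hp3
  have hl2 := Real.log_two_gt_d9
  have hr2 := hr.two_le
  have hrr : (2 : ℝ) ≤ r := by exact_mod_cast hr2
  have hpr : (3 : ℝ) ≤ p := by exact_mod_cast hp3
  have hp0 : (0 : ℝ) < p := by linarith
  have hx0 : (0 : ℝ) < x := by exact_mod_cast hx
  have hrν : r ^ padicValNat r x ∣ x := pow_padicValNat_dvd
  have hrz : ¬ r ∣ z := by
    intro h
    exact hr.one_lt.ne' (Nat.dvd_one.1 (hxz ▸ Nat.dvd_gcd hrx h))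
  have hL3 : 1 ≤ Real.log p ^ 3 := by linarith
  -- `x ^ p` is at most the largest term
  have hxM : p * Real.log x ≤ M := by
    rw [← Real.log_pow]
    rcases hcases with ⟨h, hM⟩ | ⟨h, hM⟩ | ⟨h, hM⟩
    · rw [hM]
      apply Real.log_le_log (by positivity)
      have : x ^ p ≤ y ^ 2 := by omega
      exact_mod_cast this
    · rw [hM]
    · rw [hM]
      apply Real.log_le_log (by positivity)
      have : x ^ p ≤ z ^ (p * 2) := by omega
      exact_mod_cast this
  have hνx : padicValNat r x * Real.log r ≤ Real.log x := by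
    rw [← Real.log_pow]
    apply Real.log_le_log (by positivity)
    exact_mod_cast Nat.le_of_dvd (by omega) hrν
  have htriv : p * (padicValNat r x) * Real.log r ≤ M := by
    rw [mul_assoc]
    exact (mul_le_mul_of_nonneg_left hνx hp0.le).trans hxM
  have hM0 : 0 ≤ M := le_trans (by
    have := Real.log_natCast_nonneg x
    positivity) hxM
  by_cases hcond : (C₀ + C₁) * r ^ 2 * (1 + Real.log p) ≤ p
  · have hc0 : C₀ * r * (1 + Real.log p) ≤ p := by
      refine le_trans ?_ hcond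
      apply mul_le_mul_of_nonneg_right _ (by linarith)
      apply mul_le_mul (by linarith) _ (by positivity) (by positivity)
      exact le_self_pow₀ (by linarith) (by norm_num)
    have hc1 : C₁ * r ^ 2 * (1 + Real.log p) ≤ p := by
      refine le_trans ?_ hcond
      apply mul_le_mul_of_nonneg_right _ (by linarith)
      apply mul_le_mul_of_nonneg_right (by linarith) (by positivity)
    have hp5 : 5 ≤ p := by
      have h1 : (4 : ℝ) ≤ r ^ 2 := by nlinarith
      have h2 : (8 : ℝ) ≤ (C₀ + C₁) * r ^ 2 := by nlinarith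
      have h3 : (8 : ℝ) ≤ (C₀ + C₁) * r ^ 2 * (1 + Real.log p) := by nlinarith
      have h4 : (5 : ℝ) ≤ p := by linarith
      exact_mod_cast h4
    have hdiff : ∀ A B : ℕ, Nat.Coprime A B → 1 ≤ B → B < A → B ^ 2 + x ^ p = A ^ 2 →
        (z ^ p = A ∨ z ^ p = B) → M = 2 * Real.log A →
        p * (padicValNat r x) * Real.log r ≤
          100 * (C₀ + C₁) * r ^ 10 * (Real.log p ^ 3 / p) * M := by
      intro A B hco hB hBA heq hw hM
      have h1 := diffcase hSqf hLtr hC₀ hArr p x z r A B hp hp5 hco hB hBA hx hz hr hrx hrz heq hw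
        hc0
      push_cast at h1
      refine h1.trans ?_
      rw [← hM]
      have h2 : (8 * C₀ + 16) * (r : ℝ) ^ 10 * (Real.log p ^ 3 * (M / p))
          = (8 * C₀ + 16) * r ^ 10 * (Real.log p ^ 3 / p) * M := by
        field_simp
      rw [h2]
      apply mul_le_mul_of_nonneg_right _ hM0
      apply mul_le_mul_of_nonneg_right _ (by positivity)
      apply mul_le_mul_of_nonneg_right _ (by positivity)
      linarith
    rcases hcases with ⟨h, hM⟩ | ⟨h, hM⟩ | ⟨h, hM⟩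
    · refine hdiff y (z ^ p) (Nat.Coprime.pow_right p hyz) (Nat.one_le_pow _ _ hz) ?_ ?_
        (Or.inr rfl) ?_
      · have h1 : 0 < x ^ p := pow_pos (by omega) p
        have h2 : (z ^ p) ^ 2 < y ^ 2 := by
          rw [← pow_mul]
          omega
        exact lt_of_pow_lt_pow_left₀ 2 (by omega) h2
      · rw [← pow_mul]
        omega
      · rw [hM, Real.log_pow]
        norm_num
    · have h1 := sumcase hG hC₁ hGau p x y z r hp hp3 hx hy hz hyz hr hrx hrz h hc1
      push_cast at h1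
      refine h1.trans ?_
      have h2 : M = p * Real.log x := by rw [hM, Real.log_pow]
      have h3 : 100 * (C₀ + C₁) * (r : ℝ) ^ 10 * (Real.log p ^ 3 / p) * M
          = 100 * (C₀ + C₁) * r ^ 10 * (Real.log p ^ 3 * Real.log x) := by
        rw [h2]
        field_simp
      rw [h3]
      have h4 := Real.log_natCast_nonneg x
      apply mul_le_mul_of_nonneg_right _ (by positivity)
      apply mul_le_mul_of_nonneg_right _ (by positivity)
      linarith
    · refine hdiff (z ^ p) y (Nat.Coprime.pow_left p hyz.symm) hy ?_ ?_ (Or.inl rfl) ?_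
      · have h1 : 0 < x ^ p := pow_pos (by omega) p
        have h2 : y ^ 2 < (z ^ p) ^ 2 := by
          rw [← pow_mul]
          omega
        exact lt_of_pow_lt_pow_left₀ 2 (by omega) h2
      · rw [← pow_mul]
        omega
      · rw [hM, pow_mul, Real.log_pow]
        push_cast
        ring
  · -- `p` is small
    refine htriv.trans ?_
    have h1 : (p : ℝ) ≤ (C₀ + C₁) * r ^ 2 * (2 * Real.log p ^ 3) := by
      have h2 := not_le.1 hcond
      have h3 : (C₀ + C₁) * r ^ 2 * (1 + Real.log p) ≤ (C₀ + C₁) * r ^ 2 * (2 * Real.log p ^ 3) :=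
        mul_le_mul_of_nonneg_left f4 (by positivity)
      linarith
    have h4 : (1 : ℝ) ≤ 100 * (C₀ + C₁) * r ^ 10 * (Real.log p ^ 3 / p) := by
      have h5 : 100 * (C₀ + C₁) * (r : ℝ) ^ 10 * (Real.log p ^ 3 / p)
          = (100 * (C₀ + C₁) * r ^ 10 * Real.log p ^ 3) / p := by ring
      rw [h5, le_div_iff₀ hp0, one_mul]
      refine h1.trans ?_
      have h6 : (C₀ + C₁) * (r : ℝ) ^ 2 * (2 * Real.log p ^ 3)
          = (2 * (C₀ + C₁)) * r ^ 2 * Real.log p ^ 3 := by ring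
      rw [h6]
      apply mul_le_mul_of_nonneg_right _ (by positivity)
      apply mul_le_mul (by linarith) _ (by positivity) (by positivity)
      exact pow_le_pow_right₀ (by linarith) (by norm_num)
    nlinarith

end Pool.Agent.Work.MP_2738db_nt_Y.helper79
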